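import Pool.Agent.Y463.RW.Walk

/-!
# Zeros of functions on a group along random walks

Let `V` be a finite dimensional translation invariant space of functions on a group `G` and let `P` be a
homomorphism of `G` to another group such that no nontrivial power of an element of the kernel of `P`
stabilises a subspace of `V` which the element itself does not stabilise.  Then the set of common zeros of
a subspace of `V` either contains a whole fibre of `P` or is hit by the random walk in this fibre with
polynomially small probability.
-/

set_option autoImplicit false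

namespace Pool.Agent.Y463.RW

open Finset

section action

variable {G K : Type*} [Group G] [Field K]

/-- translation of functions -/
def sh (K : Type*) [Field K] (g : G) : (G → K) →ₗ[K] (G → K) where
  toFun e := fun x => e (g⁻¹ * x)
  map_add' _ _ := rfl
  map_smul' _ _ := rfl

theorem sh_apply (g : G) (e : G → K) (x : G) : sh K g e x = e (g⁻¹ * x) := rfl

theorem sh_mul (g h : G) : sh K (g * h) = (sh K g).comp (sh K h) := by
  apply LinearMap.ext
  intro e
  funext x
  show e ((g * h)⁻¹ * x) = e (h⁻¹ * (g⁻¹ * x))
  rw [mul_inv_rev, mul_assoc]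

theorem sh_one : sh K (1 : G) = LinearMap.id := by
  apply LinearMap.ext
  intro e
  funext x
  show e (1⁻¹ * x) = e x
  rw [inv_one, one_mul]

theorem sh_inj (g : G) : Function.Injective (sh K g) := by
  intro e e' h
  have h1 := congrArg (sh K g⁻¹) h
  have h2 : ∀ f : G → K, sh K g⁻¹ (sh K g f) = f := by
    intro f
    have := congrArg (fun φ : (G → K) →ₗ[K] (G → K) => φ f) (sh_mul (K := K) g⁻¹ g)
    rw [inv_mul_cancel, sh_one] at this
    exact this.symm
  rwa [h2, h2] at h1

/-- the action on subspaces -/
def act (K : Type*) [Field K] : G →* Equiv.Perm (Submodule K (G → K)) where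
  toFun g := 
    { toFun := fun E => E.map (sh K g)
      invFun := fun E => E.map (sh K g⁻¹)
      left_inv := fun E => by
        show (E.map (sh K g)).map (sh K g⁻¹) = E
        rw [← Submodule.map_comp, ← sh_mul, inv_mul_cancel, sh_one, Submodule.map_id]
      right_inv := fun E => by
        show (E.map (sh K g⁻¹)).map (sh K g) = E
        rw [← Submodule.map_comp, ← sh_mul, mul_inv_cancel, sh_one, Submodule.map_id] }
  map_one' := by
    ext1 E
    show E.map (sh K (1 : G)) = E
    rw [sh_one, Submodule.map_id]
  map_mul' g h := by
    ext1 E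
    show E.map (sh K (g * h)) = (E.map (sh K h)).map (sh K g)
    rw [sh_mul, Submodule.map_comp]

theorem act_apply (g : G) (E : Submodule K (G → K)) : act K g E = E.map (sh K g) := rfl

/-- common zeros -/
def Zr (E : Submodule K (G → K)) : Set G := {x | ∀ e ∈ E, e x = 0}

theorem mem_Zr_act (g x : G) (E : Submodule K (G → K)) : x ∈ Zr (act K g⁻¹ E) ↔ g * x ∈ Zr E := by
  constructor
  · intro h e he
    have := h (sh K g⁻¹ e) (Submodule.mem_map_of_mem he)
    rwa [sh_apply, inv_inv] at this
  · intro h e he
    rw [act_apply, Submodule.mem_map] at he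
    obtain ⟨e', he', rfl⟩ := he
    rw [sh_apply, inv_inv]
    exact h e' he'

theorem Zr_sup (E E' : Submodule K (G → K)) (x : G) : x ∈ Zr (E ⊔ E') ↔ x ∈ Zr E ∧ x ∈ Zr E' := by
  constructor
  · intro h
    exact ⟨fun e he => h e (Submodule.mem_sup_left he), fun e he => h e (Submodule.mem_sup_right he)⟩
  · rintro ⟨h1, h2⟩ e he
    obtain ⟨y, hy, z, hz, rfl⟩ := Submodule.mem_sup.1 he
    rw [Pi.add_apply, h1 y hy, h2 z hz, add_zero]

end action

/-- the constants -/
noncomputable def Cst (q : ℝ) : ℕ → ℝ
  | 0 => 1
  | (j+1) => 32 * q^2 + 2 * Cst q j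

theorem Cst_ge (q : ℝ) : ∀ j, 1 ≤ Cst q j
  | 0 => le_rfl
  | (j+1) => by
    have := Cst_ge q j
    rw [Cst]
    nlinarith [sq_nonneg q]

/-- the exponents -/
noncomputable def ex (j : ℕ) : ℝ := 1 / (3 * 2 ^ j)

theorem ex_pos (j : ℕ) : 0 < ex j := by unfold ex; positivity

theorem ex_succ (j : ℕ) : ex (j+1) = ex j / 2 := by
  unfold ex
  rw [pow_succ]
  field_simp

theorem ex_le (j : ℕ) : ex j ≤ 1 / 3 := by
  unfold ex
  apply one_div_le_one_div_of_le (by norm_num)
  have : (1 : ℝ) ≤ 2 ^ j := one_le_pow₀ (by norm_num)
  linarith

section main

variable {G Q K L : Type*} [Group G] [Group Q] [Field K] [Fintype L] [Nonempty L]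

/-- the group element of a word -/
def gw (S : L → G) {n : ℕ} (u : Fin n → L) : G := (List.ofFn (fun i => S (u i))).prod

theorem gw_append (S : L → G) {a b : ℕ} (u : Fin a → L) (v : Fin b → L) : 
    gw S (Fin.append u v) = gw S u * gw S v := by
  unfold gw
  rw [← List.prod_append, ← List.ofFn_fin_append]
  congr 2
  funext i
  refine Fin.addCases (fun j => ?_) (fun j => ?_) i <;> simp

theorem pt_eq (S : L → G) (E : Submodule K (G → K)) {n : ℕ} (u : Fin n → L) : 
    pt (fun a => act K (S a)) E u = act K (gw S u)⁻¹ E := by
  unfold pt gw
  rw [map_inv, map_list_prod, List.map_ofFn]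
  rfl

theorem infOrbit {S : L → G} (hgen : Subgroup.closure (Set.range S) = ⊤) (P : G →* Q) 
    (inv : L → L) (hinv : ∀ a, S (inv a) = (S a)⁻¹)
    (E : Submodule K (G → K)) 
    (hconn : ∀ g, P g = 1 → ∀ N : ℕ, 0 < N → act K (g ^ N) E = E → act K g E = E)
    (hE : ∃ g, P g = 1 ∧ act K g E ≠ E) : InfOrbit (fun a => act K (S a)) E := by
  classical
  intro C hC
  by_contra hcon
  push Not at hcon
  obtain ⟨g0, hg0, hne⟩ := hE
  have hcl : ∀ g : G, ∀ z ∈ C, act K g z ∈ C := by
    intro g
    have hg : g ∈ Subgroup.closure (Set.range S) := by rw [hgen]; exact Subgroup.mem_top g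
    induction hg using Subgroup.closure_induction with
    | mem x hx => obtain ⟨a, rfl⟩ := hx; exact hcon a
    | one => intro z hz; rw [map_one]; exact hz
    | mul x y _ _ hx hy => intro z hz; rw [map_mul]; exact hx _ (hy _ hz)
    | inv x _ hx =>
      intro z hz
      -- an injective map of a finite set to itself is onto
      have h1 : C.image (act K x) = C := by
        apply Finset.eq_of_subset_of_card_le
        · intro y hy
          obtain ⟨z, hz, rfl⟩ := Finset.mem_image.1 hy
          exact hx z hz
        · rw [Finset.card_image_of_injective _ (act K x).injective]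
      rw [← h1] at hz
      obtain ⟨z', hz', rfl⟩ := Finset.mem_image.1 hz
      rw [map_inv]
      have : (act K x)⁻¹ ((act K x) z') = z' := (act K x).symm_apply_apply z'
      rw [this]
      exact hz'
  -- pigeonhole
  have hmaps : Set.MapsTo (fun k : ℕ => act K (g0 ^ k) E) Set.univ (C : Set (Submodule K (G → K))) := 
    fun k _ => hcl _ _ hC
  obtain ⟨k, _, l, _, hkl, heq⟩ := Set.infinite_univ.exists_ne_map_eq_of_mapsTo hmaps C.finite_toSet
  apply hne
  rcases lt_or_gt_of_ne hkl with h | h
  · apply hconn g0 hg0 (l - k) (by omega)
    have h1 : g0 ^ l = g0 ^ k * g0 ^ (l - k) := by rw [← pow_add]; congr 1; omega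
    rw [h1, map_mul] at heq
    exact ((act K (g0 ^ k)).injective heq).symm
  · apply hconn g0 hg0 (k - l) (by omega)
    have h1 : g0 ^ k = g0 ^ l * g0 ^ (k - l) := by rw [← pow_add]; congr 1; omega
    rw [h1, map_mul] at heq
    exact (act K (g0 ^ l)).injective heq

open Classical in
/-- **The main estimate.** -/
theorem main_abs {S : L → G} (hgen : Subgroup.closure (Set.range S) = ⊤) (P : G →* Q) 
    (inv : L → L) (hinv : ∀ a, S (inv a) = (S a)⁻¹) (V : Submodule K (G → K)) 
    [FiniteDimensional K V] (d : ℕ) (hd : Module.finrank K V ≤ d) 
    (hV : ∀ g, V.map (sh K g) ≤ V)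
    (hconn : ∀ E ≤ V, ∀ g, P g = 1 → ∀ N : ℕ, 0 < N → act K (g ^ N) E = E → act K g E = E) (j : ℕ) :
    ∀ E ≤ V, d + 1 ≤ Module.finrank K E + j → ∀ σ : Q, (¬ ∀ x, P x = σ → x ∈ Zr E) → 
      ∀ n : ℕ, 0 < n → ((univ.filter (fun u : Fin n → L => P (gw S u) = σ ∧ gw S u ∈ Zr E)).card : ℝ) ≤ 
        Cst (Fintype.card L : ℝ) j * (n : ℝ) ^ (- ex j) * (Fintype.card L : ℝ) ^ n := by
  have hq : (0 : ℝ) < Fintype.card L := by exact_mod_cast Fintype.card_pos
  induction j with
  | zero =>
    intro E hE hfin
    exfalso
    have := Submodule.finrank_mono hE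
    omega
  | succ j ih =>
    intro E hE hfin σ hσ n hn
    set q : ℝ := (Fintype.card L : ℝ) with hqdef
    -- trivial bound
    have htriv : ((univ.filter (fun u : Fin n → L => P (gw S u) = σ ∧ gw S u ∈ Zr E)).card : ℝ) ≤ q ^ n := by
      have h1 := Finset.card_filter_le (univ : Finset (Fin n → L)) 
        (fun u : Fin n → L => P (gw S u) = σ ∧ gw S u ∈ Zr E)
      rw [Finset.card_univ, Fintype.card_fun, Fintype.card_fin] at h1
      rw [hqdef]
      exact_mod_cast h1
    by_cases hinvE : ∀ g, P g = 1 → act K g E = E
    · -- invariant case
      have h0 : (univ.filter (fun u : Fin n → L => P (gw S u) = σ ∧ gw S u ∈ Zr E)) = ∅ := by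
        apply Finset.filter_false_of_mem
        rintro u _ ⟨h1, h2⟩
        apply hσ
        intro y hy
        have h3 : P (y * (gw S u)⁻¹) = 1 := by rw [map_mul, map_inv, hy, h1, mul_inv_cancel]
        have h4 := hinvE _ (show P (y * (gw S u)⁻¹)⁻¹ = 1 by rw [map_inv, h3, inv_one])
        have h5 : gw S u ∈ Zr (act K (y * (gw S u)⁻¹)⁻¹ E) := by rw [h4]; exact h2
        rw [mem_Zr_act, inv_mul_cancel_right] at h5
        exact h5
      rw [h0, Finset.card_empty, Nat.cast_zero]
      have := Cst_ge q (j+1)
      positivity
    · push Not at hinvE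
      have horb := infOrbit hgen P inv hinv E (hconn E hE) hinvE
      rcases Nat.lt_or_ge 1 n with hn1 | hn1
      swap
      · -- n = 1
        have hn' : n = 1 := by omega
        subst hn'
        refine htriv.trans ?_
        have := Cst_ge q (j+1)
        rw [Nat.cast_one, Real.one_rpow, mul_one]
        nlinarith [pow_pos hq 1]
      · obtain ⟨a, b, hab, ha, hb, h3a, h2b⟩ : ∃ a b : ℕ, a + b = n ∧ 0 < a ∧ 0 < b ∧ n ≤ 3 * a ∧ n ≤ 2 * b := 
          ⟨n / 2, n - n / 2, by omega, by omega, by omega, by omega, by omega⟩
        subst hab
        obtain ⟨r, hr0, hr1, hr2⟩ := collision (fun x => act K (S x)) inv 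
          (fun x => by rw [hinv, map_inv]) E horb a
        -- the set of pairs
        set cond : (Fin a → L) → (Fin b → L) → Prop := fun g u => 
          P (gw S g) * P (gw S u) = σ ∧ gw S u ∈ Zr (act K (gw S g)⁻¹ E) with hcond
        have hN : ((univ.filter (fun u : Fin (a+b) → L => P (gw S u) = σ ∧ gw S u ∈ Zr E)).card : ℝ) = 
            ∑ u : Fin b → L, ((univ.filter (fun g : Fin a → L => cond g u)).card : ℝ) := by
          have h1 : (univ.filter (fun u : Fin (a+b) → L => P (gw S u) = σ ∧ gw S u ∈ Zr E)).card = 
              (univ.filter (fun p : (Fin a → L) × (Fin b → L) => cond p.1 p.2)).card := by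
            symm
            apply Finset.card_equiv (Fin.appendEquiv a b)
            intro p
            simp only [Finset.mem_filter, Finset.mem_univ, true_and, hcond]
            have h2 : gw S (Fin.appendEquiv a b p) = gw S p.1 * gw S p.2 := gw_append S p.1 p.2
            rw [h2, map_mul, mem_Zr_act]
          rw [h1, Finset.card_eq_sum_card_fiberwise (f := fun p : (Fin a → L) × (Fin b → L) => p.2) 
            (t := univ) (fun _ _ => Finset.mem_coe.2 (Finset.mem_univ _)), Nat.cast_sum]
          refine Finset.sum_congr rfl fun u _ => ?_
          congr 1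
          symm
          apply Finset.card_bij (fun g _ => (g, u))
          · intro g hg
            simp only [Finset.mem_filter, Finset.mem_univ, true_and] at hg ⊢
            exact ⟨hg, trivial⟩
          · intro g _ g' _ h
            exact (Prod.mk.inj h).1
          · intro p hp
            simp only [Finset.mem_filter, Finset.mem_univ, true_and] at hp
            refine ⟨p.1, ?_, ?_⟩
            · simp only [Finset.mem_filter, Finset.mem_univ, true_and]
              rw [← hp.2]; exact hp.1
            · rw [← hp.2]
        have hcs := sq_sum_le_card_mul_sum_sq (s := (univ : Finset (Fin b → L))) 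
          (f := fun u => ((univ.filter (fun g : Fin a → L => cond g u)).card : ℝ))
        rw [← hN] at hcs
        have hcardb : ((univ : Finset (Fin b → L)).card : ℝ) = q ^ b := by
          rw [Finset.card_univ, Fintype.card_fun, Fintype.card_fin, Nat.cast_pow]
        rw [hcardb] at hcs
        -- swap the sums
        have hswap : ∑ u : Fin b → L, ((univ.filter (fun g : Fin a → L => cond g u)).card : ℝ) ^ 2 = 
            ∑ p : (Fin a → L) × (Fin a → L), 
              ((univ.filter (fun u : Fin b → L => cond p.1 u ∧ cond p.2 u)).card : ℝ) := by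
          have h1 : ∀ u : Fin b → L, ((univ.filter (fun g : Fin a → L => cond g u)).card : ℝ) ^ 2 = 
              ∑ p : (Fin a → L) × (Fin a → L), (if cond p.1 u ∧ cond p.2 u then (1 : ℝ) else 0) := by
            intro u
            rw [sq, ← Nat.cast_mul, ← Finset.card_product]
            rw [← Finset.sum_filter, Finset.sum_const, nsmul_eq_mul, mul_one]
            congr 2
            ext p
            simp only [Finset.mem_product, Finset.mem_filter, Finset.mem_univ, true_and]
          simp only [h1]
          rw [Finset.sum_comm]
          refine Finset.sum_congr rfl fun p _ => ?_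
          rw [← Finset.sum_filter, Finset.sum_const, nsmul_eq_mul, mul_one]
        rw [hswap] at hcs
        -- bound for each pair
        set Bd : ℝ := Cst q j * (b : ℝ) ^ (- ex j) * q ^ b with hBd
        have hpair : ∀ p : (Fin a → L) × (Fin a → L), 
            ((univ.filter (fun u : Fin b → L => cond p.1 u ∧ cond p.2 u)).card : ℝ) ≤ 
              (if pt (fun x => act K (S x)) E p.1 = pt (fun x => act K (S x)) E p.2 then q ^ b else 0) + Bd := by
          intro p
          have hBd0 : 0 ≤ Bd := by
            have := Cst_ge q j
            positivity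
          by_cases hp : pt (fun x => act K (S x)) E p.1 = pt (fun x => act K (S x)) E p.2
          · rw [if_pos hp]
            have h1 := Finset.card_filter_le (univ : Finset (Fin b → L)) 
              (fun u : Fin b → L => cond p.1 u ∧ cond p.2 u)
            have h2 : ((univ.filter (fun u : Fin b → L => cond p.1 u ∧ cond p.2 u)).card : ℝ) ≤ q ^ b := by
              rw [← hcardb]; exact_mod_cast h1
            linarith
          · rw [if_neg hp, zero_add]
            rw [pt_eq, pt_eq] at hp
            by_cases hP : P (gw S p.1) = P (gw S p.2)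
            · -- apply the induction hypothesis
              set E1 := act K (gw S p.1)⁻¹ E with hE1
              set E2 := act K (gw S p.2)⁻¹ E with hE2
              have hE1V : E1 ≤ V := (Submodule.map_mono hE).trans (hV _)
              have hE2V : E2 ≤ V := (Submodule.map_mono hE).trans (hV _)
              have : FiniteDimensional K E1 := Submodule.finiteDimensional_of_le hE1V
              have : FiniteDimensional K E2 := Submodule.finiteDimensional_of_le hE2V
              have hf1 : Module.finrank K E1 = Module.finrank K E := 
                (LinearEquiv.finrank_eq (Submodule.equivMapOfInjective _ (sh_inj _) E)).symm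
              have hf2 : Module.finrank K E2 = Module.finrank K E := 
                (LinearEquiv.finrank_eq (Submodule.equivMapOfInjective _ (sh_inj _) E)).symm
              have hlt : Module.finrank K E < Module.finrank K (E1 ⊔ E2 : Submodule K (G → K)) := by
                rw [← hf1]
                have hfd : FiniteDimensional K (E1 ⊔ E2 : Submodule K (G → K)) := 
                  Submodule.finiteDimensional_of_le (sup_le hE1V hE2V)
                apply Submodule.finrank_lt_finrank_of_lt
                apply lt_of_le_of_ne le_sup_left
                intro heq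
                apply hp
                have h3 : E2 ≤ E1 := by rw [heq]; exact le_sup_right
                exact (Submodule.eq_of_le_of_finrank_eq h3 (by rw [hf1, hf2])).symm
              have h4 := ih (E1 ⊔ E2) (sup_le hE1V hE2V) (by omega) ((P (gw S p.1))⁻¹ * σ) (by
                intro hall
                apply hσ
                intro x hx
                have h5 := hall ((gw S p.1)⁻¹ * x) (by rw [map_mul, map_inv, hx])
                rw [Zr_sup] at h5
                have h6 := h5.1
                rw [hE1, mem_Zr_act, mul_inv_cancel_left] at h6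
                exact h6) b hb
              refine le_trans ?_ h4
              have h7 : (univ.filter (fun u : Fin b → L => cond p.1 u ∧ cond p.2 u)) ⊆ 
                  (univ.filter (fun u : Fin b → L => P (gw S u) = (P (gw S p.1))⁻¹ * σ ∧ 
                    gw S u ∈ Zr (E1 ⊔ E2))) := by
                intro u hu
                simp only [Finset.mem_filter, Finset.mem_univ, true_and, hcond] at hu ⊢
                refine ⟨?_, ?_⟩
                · rw [← hu.1.1, inv_mul_cancel_left]
                · rw [Zr_sup]
                  exact ⟨hu.1.2, hu.2.2⟩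
              exact_mod_cast Finset.card_le_card h7
            · have h7 : (univ.filter (fun u : Fin b → L => cond p.1 u ∧ cond p.2 u)) = ∅ := by
                apply Finset.filter_false_of_mem
                rintro u _ ⟨h1, h2⟩
                simp only [hcond] at h1 h2
                apply hP
                have := h1.1.trans h2.1.symm
                exact mul_right_cancel this
              rw [h7, Finset.card_empty, Nat.cast_zero]
              exact hBd0
        have htot : ∑ p : (Fin a → L) × (Fin a → L), 
              ((univ.filter (fun u : Fin b → L => cond p.1 u ∧ cond p.2 u)).card : ℝ) ≤ 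
            q ^ b * (r * q ^ (2 * a)) + q ^ (2 * a) * Bd := by
          refine (Finset.sum_le_sum fun p _ => hpair p).trans ?_
          have hr3 : ((univ.filter (fun p : (Fin a → L) × (Fin a → L) => 
              pt (fun x => act K (S x)) E p.1 = pt (fun x => act K (S x)) E p.2)).card : ℝ) = 
                r * q ^ (2 * a) := by
            rw [← hr2]
            apply congrArg (fun F : Finset ((Fin a → L) × (Fin a → L)) => (F.card : ℝ))
            ext p
            simp only [Finset.mem_filter, Finset.mem_univ, true_and]
          rw [Finset.sum_add_distrib, ← Finset.sum_filter, Finset.sum_const, Finset.sum_const, 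
            nsmul_eq_mul, nsmul_eq_mul, hr3, Finset.card_univ, Fintype.card_prod, Fintype.card_fun, 
            Fintype.card_fin]
          push_cast
          rw [← hqdef]
          apply le_of_eq
          rw [two_mul, pow_add]
          ring
        -- numerical estimates
        have hn0 : (0 : ℝ) < ((a + b : ℕ) : ℝ) := by
          have : 0 < a + b := by omega
          exact_mod_cast this
        set y : ℝ := ((a + b : ℕ) : ℝ) ^ (- ex j) with hy
        have hy0 : 0 < y := Real.rpow_pos_of_pos hn0 _
        have hry : r ≤ 32 * q^2 * y := by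
          -- r^3 ≤ 32 q^2 / n
          have hq1 : (1 : ℝ) ≤ q := by rw [hqdef]; exact_mod_cast Fintype.card_pos
          have h1 : r ^ 3 * ((a + b : ℕ) : ℝ) ≤ 32 * q^2 := by
            have h2 : r ^ 3 * (3 * (1 / (32 * q^2)) * a) ≤ 1 := by
              have h3 : 0 ≤ r ^ 3 := by positivity
              have : r ^ 3 * (1 + 3 * (1 / (32 * q^2)) * a) = r ^ 3 + r ^ 3 * (3 * (1 / (32 * q^2)) * a) := by 
                ring
              rw [this] at hr1
              linarith
            have h4 : ((a + b : ℕ) : ℝ) ≤ 3 * a := by exact_mod_cast h3a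
            have h5 : r ^ 3 * (3 * (1 / (32 * q^2)) * a) = r^3 * (3 * a) / (32 * q^2) := by
              field_simp
            rw [h5, div_le_one (by positivity)] at h2
            have h3 : 0 ≤ r ^ 3 := by positivity
            nlinarith
          have h6 : r ≤ (32 * q^2) * ((a + b : ℕ) : ℝ) ^ (-(1/3) : ℝ) := by
            have h7 : r ^ 3 ≤ ((32 * q^2) * ((a + b : ℕ) : ℝ) ^ (-(1/3) : ℝ)) ^ 3 := by
              rw [mul_pow, ← Real.rpow_natCast (((a + b : ℕ) : ℝ) ^ (-(1/3) : ℝ)) 3, 
                ← Real.rpow_mul hn0.le]
              have e : (-(1/3) : ℝ) * ((3 : ℕ) : ℝ) = -1 := by norm_num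
              rw [e, Real.rpow_neg_one]
              rw [← div_eq_mul_inv, le_div_iff₀ hn0]
              refine h1.trans ?_
              have h8 : (1 : ℝ) ≤ 32 * q^2 := by nlinarith
              nlinarith [sq_nonneg (32 * q^2), pow_pos (lt_of_lt_of_le one_pos h8) 2]
            exact le_of_pow_le_pow_left₀ (by norm_num) (by positivity) h7
          refine h6.trans ?_
          apply mul_le_mul_of_nonneg_left _ (by positivity)
          rw [hy]
          apply Real.rpow_le_rpow_of_exponent_le
          · have : 1 ≤ a + b := by omega
            exact_mod_cast this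
          · have := ex_le j
            linarith
        have hby : (b : ℝ) ^ (- ex j) ≤ 2 * y := by
          have hb0 : (0 : ℝ) < b := by exact_mod_cast hb
          have h1 : (((a + b : ℕ) : ℝ) / 2) ≤ b := by
            have : ((a + b : ℕ) : ℝ) ≤ 2 * b := by exact_mod_cast h2b
            linarith
          have h2 : (b : ℝ) ^ (- ex j) ≤ (((a + b : ℕ) : ℝ) / 2) ^ (- ex j) := 
            Real.rpow_le_rpow_of_nonpos (by positivity) h1 (by have := ex_pos j; linarith)
          refine h2.trans ?_
          rw [Real.div_rpow hn0.le (by norm_num), ← hy]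
          have h3 : (2 : ℝ) ^ (-1 : ℝ) ≤ (2 : ℝ) ^ (- ex j) := by
            apply Real.rpow_le_rpow_of_exponent_le (by norm_num)
            have := ex_le j
            linarith
          rw [Real.rpow_neg_one] at h3
          rw [div_le_iff₀ (Real.rpow_pos_of_pos (by norm_num) _)]
          nlinarith
        have hCj := Cst_ge q j
        -- conclusion
        set Nn : ℝ := ((univ.filter (fun u : Fin (a+b) → L => P (gw S u) = σ ∧ gw S u ∈ Zr E)).card : ℝ) 
          with hNn
        have hNn0 : 0 ≤ Nn := by rw [hNn]; positivity
        have hfinal : Nn ^ 2 ≤ (Cst q (j+1) * y) * (q ^ (a+b))^2 := by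
          refine hcs.trans ?_
          refine (mul_le_mul_of_nonneg_left htot (by positivity)).trans ?_
          have h1 : q ^ b * (q ^ b * (r * q ^ (2 * a)) + q ^ (2 * a) * Bd) = 
              (r + Cst q j * (b : ℝ) ^ (- ex j)) * (q ^ (a+b))^2 := by
            rw [hBd, pow_add, two_mul, pow_add]
            ring
          rw [h1]
          apply mul_le_mul_of_nonneg_right _ (by positivity)
          rw [Cst]
          nlinarith
        have hX : (1 : ℝ) ≤ Cst q (j+1) := Cst_ge q (j+1)
        have hyy : y = (((a + b : ℕ) : ℝ) ^ (- ex (j+1)))^2 := by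
          rw [hy, ← Real.rpow_natCast, ← Real.rpow_mul hn0.le, ex_succ]
          congr 1
          push_cast
          ring
        have hle : Nn ^ 2 ≤ (Cst q (j+1) * ((a + b : ℕ) : ℝ) ^ (- ex (j+1)) * q ^ (a+b)) ^ 2 := by
          refine hfinal.trans ?_
          rw [hyy, mul_pow, mul_pow]
          apply mul_le_mul_of_nonneg_right _ (by positivity)
          apply mul_le_mul_of_nonneg_right _ (by positivity)
          nlinarith
        exact le_of_pow_le_pow_left₀ (by norm_num) (by positivity) hle

end main

end Pool.Agent.Y463.RW
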