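import Pool.Agent.Y463.RW.Fun

/-!
# Powers of pure braids and invariant subspaces
-/

set_option autoImplicit false

namespace Pool.Agent.Y463.RW

open Finset LaurentPolynomial Pool.Agent.H891R2.Jones Pool.Agent.W639.RB Pool.Agent.Y463.SK

/-- a finite dimensional space of functions and a function outside of it are separated by a finite
combination of evaluations -/
theorem separate {X K : Type*} [Field K] (E : Submodule K (X → K)) [FiniteDimensional K E] 
    (y : X → K) (hy : y ∉ E) : ∃ c : X →₀ K, (∀ e ∈ E, (c.sum fun x r => r * e x) = 0) ∧ 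
      (c.sum fun x r => r * y x) ≠ 0 := by
  classical
  set U : Submodule K (X → K) := E ⊔ Submodule.span K {y} with hU
  have hUfin : FiniteDimensional K U := by
    rw [hU]; infer_instance
  -- evaluations
  let evx : X → Module.Dual K U := fun x => 
    { toFun := fun u => u.1 x
      map_add' := fun _ _ => rfl
      map_smul' := fun _ _ => rfl }
  set W : Subspace K (Module.Dual K U) := LinearMap.range (Finsupp.linearCombination K evx) with hW
  have hWtop : W = ⊤ := by
    have h1 : W.dualCoannihilator = ⊥ := by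
      rw [eq_bot_iff]
      intro u hu
      rw [Submodule.mem_dualCoannihilator] at hu
      rw [Submodule.mem_bot]
      apply Subtype.ext
      funext x
      have := hu (evx x) ⟨Finsupp.single x 1, by simp⟩
      exact this
    rw [← Subspace.dualCoannihilator_dualAnnihilator_eq (W := W), h1, Submodule.dualAnnihilator_bot]
  -- a functional vanishing on `E` but not at `y`
  have hyU : y ∈ U := Submodule.mem_sup_right (Submodule.mem_span_singleton_self y)
  have hy' : (⟨y, hyU⟩ : U) ∉ E.comap U.subtype := hy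
  obtain ⟨lam, hlam1, hlam2⟩ := Submodule.exists_dual_map_eq_bot_of_notMem hy' inferInstance
  have hmem : lam ∈ W := by rw [hWtop]; exact Submodule.mem_top
  obtain ⟨c, hc⟩ := hmem
  have hcu : ∀ u : U, lam u = c.sum fun x r => r * u.1 x := by
    intro u
    rw [← hc, Finsupp.linearCombination_apply, Finsupp.sum, Finsupp.sum, LinearMap.sum_apply]
    rfl
  refine ⟨c, fun e he => ?_, ?_⟩
  · have heU : e ∈ U := Submodule.mem_sup_left he
    rw [← hcu ⟨e, heU⟩]
    have h2 : lam ⟨e, heU⟩ ∈ (E.comap U.subtype).map lam := Submodule.mem_map_of_mem he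
    rw [hlam2, Submodule.mem_bot] at h2
    exact h2
  · rw [← hcu ⟨y, hyU⟩]
    exact hlam1

/-- sequences in the field which become small sequences after multiplication by an element of the ring -/
def EisK (a : ℤ → KK) : Prop := 
  ∃ (r : ℤ[T;T⁻¹]) (b : ℤ → ℤ[T;T⁻¹]), r ≠ 0 ∧ Eis b ∧ 
    ∀ n, algebraMap ℤ[T;T⁻¹] KK r * a n = algebraMap ℤ[T;T⁻¹] KK (b n)

theorem EisK.add {a b : ℤ → KK} (ha : EisK a) (hb : EisK b) : EisK (fun n => a n + b n) := by
  obtain ⟨r, a', hr, ha1, ha2⟩ := ha
  obtain ⟨t, b', ht, hb1, hb2⟩ := hb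
  refine ⟨r * t, t • a' + r • b', mul_ne_zero hr ht, (ha1.smul t).add (hb1.smul r), fun n => ?_⟩
  simp only [Pi.add_apply, Pi.smul_apply, smul_eq_mul, map_add, map_mul, ← ha2, ← hb2]
  ring

theorem EisK.smul {a : ℤ → KK} (ha : EisK a) (c : KK) : EisK (fun n => c * a n) := by
  obtain ⟨r, a', hr, ha1, ha2⟩ := ha
  obtain ⟨x, y, hy, hxy⟩ := IsFractionRing.div_surjective (A := ℤ[T;T⁻¹]) c
  have hy0 : y ≠ 0 := nonZeroDivisors.ne_zero hy
  have hy1 : algebraMap ℤ[T;T⁻¹] KK y ≠ 0 := by
    intro h
    exact hy0 ((IsFractionRing.injective ℤ[T;T⁻¹] KK) (by rw [h, map_zero]))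
  refine ⟨y * r, x • a', mul_ne_zero hy0 hr, ha1.smul x, fun n => ?_⟩
  rw [← hxy]
  simp only [Pi.smul_apply, smul_eq_mul, map_mul, ← ha2]
  field_simp

theorem EisK.zero : EisK (fun _ => 0) := ⟨1, 0, one_ne_zero, Eis.zero, fun n => by simp⟩

theorem EisK.sum {ι : Type*} (S : Finset ι) (a : ι → ℤ → KK) (h : ∀ i ∈ S, EisK (a i)) : 
    EisK (fun n => ∑ i ∈ S, a i n) := by
  classical
  induction S using Finset.induction_on with
  | empty => simpa using EisK.zero
  | insert i S hi ih =>
    have h1 := (h i (Finset.mem_insert_self _ _)).add (ih (fun j hj => h j (Finset.mem_insert_of_mem hj)))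
    simpa [Finset.sum_insert hi] using h1

theorem EisK.eq_zero {a : ℤ → KK} (ha : EisK a) (N : ℕ) (hN : 0 < N) (h : ∀ k : ℕ, a (N * k) = 0) : 
    ∀ n, a n = 0 := by
  obtain ⟨r, b, hr, hb1, hb2⟩ := ha
  have hinj := IsFractionRing.injective ℤ[T;T⁻¹] KK
  have hr1 : algebraMap ℤ[T;T⁻¹] KK r ≠ 0 := by
    intro h
    exact hr (hinj (by rw [h, map_zero]))
  have h1 : b = 0 := by
    apply hb1.eq_zero N hN
    intro k
    apply hinj
    rw [← hb2, h k, mul_zero, map_zero]
  intro n
  have h2 := hb2 n
  rw [h1, Pi.zero_apply, map_zero] at h2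
  exact (mul_eq_zero.1 h2).resolve_left hr1

section conn

variable {m s : ℕ}

/-- the sequences `e(g^n x)` for `e` in the space of translates -/
theorem seq_VV (hm : 0 < m) (O : Outer m) (w : Fin s → List (Letter m)) (v : List (Letter m)) 
    (F : ℤ[T;T⁻¹]) (g : FreeGroup (Fin s)) (hg : PH w g = 1) (e : FreeGroup (Fin s) → KK) 
    (he : e ∈ VV O w v F) (x : FreeGroup (Fin s)) : EisK (fun n : ℤ => sh KK (g ^ n) e x) := by
  unfold VV at he
  induction he using Submodule.span_induction with
  | zero => 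
    have : (fun n : ℤ => sh KK (g ^ n) (0 : FreeGroup (Fin s) → KK) x) = fun _ => 0 := by
      funext n; rw [map_zero]; rfl
    rw [this]; exact EisK.zero
  | add a b _ _ ha hb =>
    have : (fun n : ℤ => sh KK (g ^ n) (a + b) x) = 
        fun n : ℤ => sh KK (g ^ n) a x + sh KK (g ^ n) b x := by
      funext n; rw [map_add]; rfl
    rw [this]; exact ha.add hb
  | smul c a _ ha =>
    have : (fun n : ℤ => sh KK (g ^ n) (c • a) x) = fun n : ℤ => c * sh KK (g ^ n) a x := by
      funext n; rw [map_smul]; rfl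
    rw [this]; exact ha.smul c
  | mem a ha =>
    obtain ⟨γ, rfl⟩ := ha
    have h1 : (fun n : ℤ => sh KK (g ^ n) (sh KK γ (hF O w v F)) x) = 
        fun n : ℤ => algebraMap ℤ[T;T⁻¹] KK (h0 O w v (γ⁻¹ * ((g⁻¹) ^ n * x)) - F) := by
      funext n
      rw [sh_apply, sh_apply]
      unfold hF
      rw [inv_zpow]
    rw [h1]
    have h2 : PH w g⁻¹ = 1 := by rw [map_inv, hg, inv_one]
    have h3 := h0_eis hm O w v γ⁻¹ g⁻¹ x h2
    have h4 := h3.add ((Eis.const F).smul (-1))
    refine ⟨1, _, one_ne_zero, h4, fun n => ?_⟩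
    rw [map_one, one_mul]
    congr 1
    simp only [Pi.add_apply, Pi.smul_apply, smul_eq_mul]
    rw [neg_one_mul, sub_eq_add_neg]

/-- (connectedness) -/
theorem conn (hm : 0 < m) (O : Outer m) (w : Fin s → List (Letter m)) (v : List (Letter m)) 
    (F : ℤ[T;T⁻¹]) (E : Submodule KK (FreeGroup (Fin s) → KK)) (hE : E ≤ VV O w v F) 
    (g : FreeGroup (Fin s)) (hg : PH w g = 1) (N : ℕ) (hN : 0 < N) (h : act KK (g ^ N) E = E) : 
    act KK g E = E := by
  have hfin := (VV_fin hm O w v F).1
  have hEfin : FiniteDimensional KK E := Submodule.finiteDimensional_of_le hE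
  have hle : act KK g E ≤ E := by
    rw [act_apply]
    rintro _ ⟨e, he, rfl⟩
    by_contra hy
    obtain ⟨c, hc1, hc2⟩ := separate E _ hy
    apply hc2
    -- all multiples of `N`
    have hmul : ∀ k : ℕ, act KK (g ^ (N * k)) E = E := by
      intro k
      induction k with
      | zero => rw [mul_zero, pow_zero, map_one]; rfl
      | succ k ih =>
        rw [Nat.mul_succ, pow_add, map_mul]
        show act KK (g ^ (N * k)) (act KK (g ^ N) E) = E
        rw [h, ih]
    have hs : EisK (fun n : ℤ => ∑ x ∈ c.support, c x * sh KK (g ^ n) e x) := by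
      apply EisK.sum
      intro x _
      exact (seq_VV hm O w v F g hg e (hE he) x).smul (c x)
    have h1 := hs.eq_zero N hN (by
      intro k
      have h2 : sh KK (g ^ (N * k)) e ∈ E := by
        have := hmul k
        rw [act_apply] at this
        rw [← this]
        exact Submodule.mem_map_of_mem he
      have h3 := hc1 _ h2
      have h4 : g ^ ((N : ℤ) * k) = g ^ (N * k) := by
        rw [← Nat.cast_mul, zpow_natCast]
      simp only [h4]
      exact h3) 1
    simp only [zpow_one] at h1
    exact h1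
  have hf : Module.finrank KK (act KK g E : Submodule KK (FreeGroup (Fin s) → KK)) = 
      Module.finrank KK E := 
    (LinearEquiv.finrank_eq (Submodule.equivMapOfInjective _ (sh_inj _) E)).symm
  exact Submodule.eq_of_le_of_finrank_eq hle hf

end conn

end Pool.Agent.Y463.RW
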