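import Pool.Agent.Y463.SK.Defs

/-!
# Random products of given braids
-/

set_option autoImplicit false

namespace Pool.Agent.Y463.RW

open Pool.Agent.H891R2.Jones Pool.Agent.W639.RB Pool.Agent.Y463.SK

/-- the word `w_{i_1}^{±1} w_{i_2}^{±1} ⋯ w_{i_n}^{±1}` of a sequence `u` of pairs `(i, ±)` (`true` stands
for the exponent `1` and `false` for the exponent `-1`) -/
def prodW {m s n : ℕ} (w : Fin s → List (Letter m)) (u : Fin n → Fin s × Bool) : List (Letter m) :=
  (List.ofFn (fun i => if (u i).2 then w (u i).1 else invW (w (u i).1))).flatten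

end Pool.Agent.Y463.RW
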