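import Pool.Agent.Y463.SK.Gen

/-!
# Sequences with an `(A+1)`-adically small recurrence
-/

set_option autoImplicit false

namespace Pool.Agent.Y463.RW

open Finset LaurentPolynomial Pool.Agent.H891R2.Jones Pool.Agent.W639.RB Pool.Agent.Y463.SK

/-- the sequence is annihilated by a monic polynomial in the difference operator whose lower
coefficients are divisible by the complementary powers of `A + 1` -/
def Eis (a : ℤ → ℤ[T;T⁻¹]) : Prop := 
  ∃ p : Polynomial ℤ[T;T⁻¹], p.Monic ∧ (∀ j, (T 1 + 1 : ℤ[T;T⁻¹]) ^ (p.natDegree - j) ∣ p.coeff j) ∧ 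
    Polynomial.aeval (Dl ℤ[T;T⁻¹]) p a = 0

theorem small_mul {p q : Polynomial ℤ[T;T⁻¹]} (hp : p.Monic) (hq : q.Monic) 
    (h1 : ∀ j, (T 1 + 1 : ℤ[T;T⁻¹]) ^ (p.natDegree - j) ∣ p.coeff j)
    (h2 : ∀ j, (T 1 + 1 : ℤ[T;T⁻¹]) ^ (q.natDegree - j) ∣ q.coeff j) (k : ℕ) :
    (T 1 + 1 : ℤ[T;T⁻¹]) ^ ((p * q).natDegree - k) ∣ (p * q).coeff k := by
  rw [hp.natDegree_mul hq, Polynomial.coeff_mul]
  apply Finset.dvd_sum
  rintro ⟨i, j⟩ hij
  rw [Finset.HasAntidiagonal.mem_antidiagonal] at hij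
  simp only at hij
  have h3 := mul_dvd_mul (h1 i) (h2 j)
  rw [← pow_add] at h3
  exact (pow_dvd_pow _ (by omega)).trans h3

theorem Eis.add {a b : ℤ → ℤ[T;T⁻¹]} (ha : Eis a) (hb : Eis b) : Eis (a + b) := by
  obtain ⟨p, hp1, hp2, hp3⟩ := ha
  obtain ⟨q, hq1, hq2, hq3⟩ := hb
  refine ⟨p * q, hp1.mul hq1, small_mul hp1 hq1 hp2 hq2, ?_⟩
  rw [map_add]
  have h1 : Polynomial.aeval (Dl ℤ[T;T⁻¹]) (p * q) b = 0 := by
    rw [map_mul, Module.End.mul_apply, hq3, map_zero]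
  have h2 : Polynomial.aeval (Dl ℤ[T;T⁻¹]) (p * q) a = 0 := by
    rw [mul_comm, map_mul, Module.End.mul_apply, hp3, map_zero]
  rw [h1, h2, add_zero]

theorem Eis.smul {a : ℤ → ℤ[T;T⁻¹]} (ha : Eis a) (r : ℤ[T;T⁻¹]) : Eis (r • a) := by
  obtain ⟨p, hp1, hp2, hp3⟩ := ha
  exact ⟨p, hp1, hp2, by rw [map_smul, hp3, smul_zero]⟩

theorem Eis.const (r : ℤ[T;T⁻¹]) : Eis (fun _ => r) := by
  refine ⟨Polynomial.X, Polynomial.monic_X, ?_, ?_⟩
  · intro j
    rw [Polynomial.natDegree_X]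
    rcases j with _ | j
    · rw [Polynomial.coeff_X_zero]; exact dvd_zero _
    · have : 1 - (j + 1) = 0 := by omega
      rw [this, pow_zero]; exact one_dvd _
  · rw [Polynomial.aeval_X]
    funext n
    show r - r = 0
    rw [sub_self]

theorem Eis.zero : Eis 0 := Eis.const 0

theorem Eis.eq_zero {a : ℤ → ℤ[T;T⁻¹]} (ha : Eis a) (N : ℕ) (hN : 0 < N) (h : ∀ k : ℕ, a (N * k) = 0) : 
    a = 0 := by
  classical
  obtain ⟨p, hp1, hp2, hp3⟩ := ha
  have hinj : Function.Injective (fun k : ℕ => ((N : ℤ) * k)) := by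
    intro k l hkl
    simp only at hkl
    have h1 : (N : ℤ) ≠ 0 := by exact_mod_cast hN.ne'
    exact_mod_cast mul_left_cancel₀ h1 hkl
  refine vanish prime_pi not_pi_dvd_int eq_zero_of_pi_pow p hp1 hp2 a hp3 
    ((Finset.range p.natDegree).image (fun k : ℕ => ((N : ℤ) * k))) ?_ ?_
  · rw [Finset.card_image_of_injective _ hinj, Finset.card_range]
  · intro z hz
    obtain ⟨k, _, rfl⟩ := Finset.mem_image.1 hz
    exact h k

/-- powers of a pure braid -/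
theorem seq_eis {m : ℕ} (hm : 0 < m) (O : Outer m) (w : List (Bool × ℕ)) 
    (hw : ∀ x ∈ w, x.2 + 1 < m) (hp : permL w = 1) (v : List (Bool × ℕ)) 
    (hv : ∀ x ∈ v, x.2 + 1 < m) : Eis (fun n : ℤ => ff O (powL w n ++ v)) := by
  set c := costS w (pat O.up) with hc
  set u : ℤ[T;T⁻¹] := T (-3 * c) with hu
  have hcev : Even (-3 * c) := (even_cost w hw hp O.up).mul_left (-3)
  have hpi : (T 1 + 1 : ℤ[T;T⁻¹]) ∣ u - 1 := pi_dvd_T_even _ hcev
  obtain ⟨p, hp1, hp2, hp3, hp4⟩ := exists_poly (A := (T 1 : ℤ[T;T⁻¹])) (A' := T (-1)) T_mul_inv rfl 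
    (isTLr_EB m) hm (EB_zero m) w hw hp u hpi
  refine ⟨p, hp1, hp3, ?_⟩
  set f : ℤ → ℤ[T;T⁻¹] := fun n => ff O (powL w n ++ v) with hf
  set X : ℤ → BB m := fun n => (T (-3 * (n * c)) : ℤ[T;T⁻¹]) • bb m (powL w n) with hX
  set b : BB m := u • bb m w with hb
  have hXs : ∀ n, X (n+1) = b * X n := by
    intro n
    simp only [hX, hb]
    rw [bb_pow_succ w hw n, smul_mul_smul_comm, hu, ← T_add]
    congr 2
    ring
  set K : {N : ℕ // 3 ≤ N} → ℂ := fun N => (if Even (owr O + costS v (pat O.up)) then (1 : ℂ) else -1) * 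
        (Ar N.1) ^ (-3 * (owr O + costS v (pat O.up))) with hK
  have hpow : ∀ (N : {N : ℕ // 3 ≤ N}) (k : ℕ) (n : ℤ), 
      (N.1 : ℂ) * ev N.1 N.2 (((Dl ℤ[T;T⁻¹]) ^ k) f n) = K N * Fn O N v ((b - 1) ^ k * X n) := by
    intro N k
    induction k with
    | zero =>
      intro n
      rw [pow_zero, pow_zero, one_mul]
      exact key_formula hm O w hw hp v hv N n
    | succ k ih =>
      intro n
      have h1 : ((Dl ℤ[T;T⁻¹]) ^ (k+1)) f n = 
          ((Dl ℤ[T;T⁻¹]) ^ k) f (n+1) - ((Dl ℤ[T;T⁻¹]) ^ k) f n := by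
        rw [pow_succ', Module.End.mul_apply]
        rfl
      rw [h1, map_sub, mul_sub, ih (n+1), ih n, ← mul_sub, ← Fn_sub]
      congr 2
      rw [hXs, pow_succ]
      noncomm_ring
  funext n
  apply eq_zero_of_ev
  intro N hN
  have hNC : (N : ℂ) ≠ 0 := by
    rw [Nat.cast_ne_zero]; omega
  have h1 : (N : ℂ) * ev N hN (Polynomial.aeval (Dl ℤ[T;T⁻¹]) p f n) = 
      K ⟨N, hN⟩ * Fn O ⟨N, hN⟩ v (Polynomial.aeval (b - 1) p * X n) := by
    rw [Polynomial.aeval_eq_sum_range, Polynomial.aeval_eq_sum_range, LinearMap.sum_apply, 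
      Finset.sum_apply, map_sum, Finset.mul_sum, Finset.sum_mul]
    have h2 : ∀ (s : Finset ℕ) (g : ℕ → BB m), Fn O ⟨N, hN⟩ v (∑ i ∈ s, g i) = 
        ∑ i ∈ s, Fn O ⟨N, hN⟩ v (g i) := by
      classical
      intro s g
      induction s using Finset.induction_on with
      | empty => simp [Fn_zero]
      | insert a s ha ih => rw [Finset.sum_insert ha, Finset.sum_insert ha, Fn_add, ih]
    rw [h2, Finset.mul_sum]
    refine Finset.sum_congr rfl fun i _ => ?_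
    have h3 := hpow ⟨N, hN⟩ i n
    simp only at h3
    rw [smul_mul_assoc, Fn_smul, LinearMap.smul_apply, Pi.smul_apply, smul_eq_mul, map_mul, 
      mul_left_comm, h3]
    ring
  have hp5 : Polynomial.aeval (b - 1) p = 0 := hp4
  rw [hp5, zero_mul, Fn_zero, mul_zero] at h1
  exact (mul_eq_zero.1 h1).resolve_left hNC

end Pool.Agent.Y463.RW
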