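import Pool.Agent.Y463.RW.Conn
import Pool.Agent.Y463.RW.Defs

/-!
# The zero-one law
-/

set_option autoImplicit false

namespace Pool.Agent.Y463.RW

open Finset LaurentPolynomial Pool.Agent.H891R2.Jones Pool.Agent.W639.RB Pool.Agent.Y463.SK

variable {m s : ℕ}

/-- the letters as elements of the free group -/
def Sg (s : ℕ) (x : Fin s × Bool) : FreeGroup (Fin s) := FreeGroup.mk [x]

theorem Sg_inv (x : Fin s × Bool) : Sg s (x.1, !x.2) = (Sg s x)⁻¹ := by
  unfold Sg
  rw [FreeGroup.inv_mk]
  rfl

theorem Sg_gen : Subgroup.closure (Set.range (Sg s)) = ⊤ := by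
  rw [eq_top_iff, ← FreeGroup.closure_range_of]
  apply Subgroup.closure_mono
  rintro _ ⟨i, rfl⟩
  exact ⟨(i, true), rfl⟩

theorem mk_prod (l : List (Fin s × Bool)) : (l.map (Sg s)).prod = FreeGroup.mk l := by
  induction l with
  | nil => rfl
  | cons x l ih => 
    rw [List.map_cons, List.prod_cons, ih]
    unfold Sg
    rw [FreeGroup.mul_mk]
    rfl

theorem gw_eq {n : ℕ} (u : Fin n → Fin s × Bool) : gw (Sg s) u = FreeGroup.mk (List.ofFn u) := by
  unfold gw
  rw [← mk_prod, List.map_ofFn]
  rfl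

theorem toN_prodW {n : ℕ} (w : Fin s → List (Letter m)) (u : Fin n → Fin s × Bool) : 
    toN (prodW w u) = exL w (List.ofFn u) := by
  unfold prodW exL
  rw [toN_flatten, List.map_ofFn, List.map_ofFn]
  congr 2
  funext i
  simp only [Function.comp_apply]
  split_ifs
  · rfl
  · exact toN_inv _

theorem eqv_gw {n : ℕ} (w : Fin s → List (Letter m)) (u : Fin n → Fin s × Bool) : 
    Eqv m (EE w (gw (Sg s) u)) (toN (prodW w u)) := by
  rw [gw_eq, toN_prodW]
  exact EE_mk w _

theorem h0_gw (hm : 0 < m) {n : ℕ} (O : Outer m) (w : Fin s → List (Letter m)) (v : List (Letter m)) 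
    (u : Fin n → Fin s × Bool) : h0 O w v (gw (Sg s) u) = (dia O (prodW w u ++ v)).fPoly := by
  rw [dia_fPoly, toN_append]
  unfold h0
  apply ff_congr hm O (EEv_lt w v _)
  · intro x hx
    rcases List.mem_append.1 hx with h | h
    · exact toN_lt _ x h
    · exact toN_lt _ x h
  · exact Eqv.append (eqv_gw w u) (Eqv.refl _)

theorem perm_iff (a b : List (Letter m)) : permL (toN a) = permL (toN b) ↔ permW a = permW b := by
  constructor
  · intro h
    ext i
    have h1 := (permL_toN a).1 i
    have h2 := (permL_toN b).1 i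
    rw [← h1, ← h2, h]
  · intro h
    ext i
    rcases Nat.lt_or_ge i m with hi | hi
    · have h1 := (permL_toN a).1 ⟨i, hi⟩
      have h2 := (permL_toN b).1 ⟨i, hi⟩
      simp only at h1 h2
      rw [h1, h2, h]
    · rw [(permL_toN a).2 i hi, (permL_toN b).2 i hi]

open Classical in
/-- **The zero-one law for random products of braids.** -/
theorem zero_one (hm : 0 < m) (hs : 0 < s) (O : Outer m) (w : Fin s → List (Letter m)) 
    (v : List (Letter m)) (F : ℤ[T;T⁻¹]) (τ : Equiv.Perm (Fin m)) :
    (∀ (n : ℕ) (u : Fin n → Fin s × Bool), permW (prodW w u) = τ → 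
      (dia O (prodW w u ++ v)).fPoly = F) ∨ 
    ∀ n : ℕ, 0 < n → ((univ.filter (fun u : Fin n → Fin s × Bool => permW (prodW w u) = τ ∧ 
      (dia O (prodW w u ++ v)).fPoly = F)).card : ℝ) ≤ 
        Cst (2 * s : ℝ) (dimB m + 1) * (n : ℝ) ^ (- ex (dimB m + 1)) * (2 * s : ℝ) ^ n := by
  by_cases hτ : ∃ (n : ℕ) (u : Fin n → Fin s × Bool), permW (prodW w u) = τ
  swap
  · left
    intro n u hu
    exact absurd ⟨n, u, hu⟩ hτ
  obtain ⟨n0, u0, hu0⟩ := hτ
  have : NeZero s := ⟨hs.ne'⟩
  set σ : Equiv.Perm ℕ := permL (toN (prodW w u0)) with hσ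
  have hP : ∀ {n : ℕ} (u : Fin n → Fin s × Bool), PH w (gw (Sg s) u) = σ ↔ permW (prodW w u) = τ := by
    intro n u
    have h1 : PH w (gw (Sg s) u) = permL (toN (prodW w u)) := (eqv_gw w u).2.1
    rw [h1, hσ, perm_iff, hu0]
  set E : Submodule KK (FreeGroup (Fin s) → KK) := Submodule.span KK {hF O w v F} with hE
  have hEV : E ≤ VV O w v F := by
    rw [hE, Submodule.span_le, Set.singleton_subset_iff]
    apply Submodule.subset_span
    refine ⟨1, ?_⟩
    show sh KK 1 (hF O w v F) = _
    rw [sh_one]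
    rfl
  have hzero : ∀ x, x ∈ Zr E ↔ h0 O w v x = F := by
    intro x
    constructor
    · intro h
      have h1 := h (hF O w v F) (Submodule.mem_span_singleton_self _)
      unfold hF at h1
      have h2 := (IsFractionRing.injective ℤ[T;T⁻¹] KK) (h1.trans (map_zero _).symm)
      exact sub_eq_zero.1 h2
    · intro h e he
      obtain ⟨c, rfl⟩ := Submodule.mem_span_singleton.1 he
      rw [Pi.smul_apply]
      unfold hF
      rw [h, sub_self, map_zero, smul_zero]
  have hcard : (Fintype.card (Fin s × Bool) : ℝ) = 2 * s := by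
    rw [Fintype.card_prod, Fintype.card_fin, Fintype.card_bool]
    push_cast
    ring
  obtain ⟨hfin, hdim⟩ := VV_fin hm O w v F
  by_cases hall : ∀ x, PH w x = σ → x ∈ Zr E
  · left
    intro n u hu
    have h1 := hall (gw (Sg s) u) ((hP u).2 hu)
    rw [hzero, h0_gw hm] at h1
    exact h1
  · right
    intro n hn
    have h1 := main_abs (S := Sg s) Sg_gen (PH w) (fun x => (x.1, !x.2)) (fun x => Sg_inv x) 
      (VV O w v F) (dimB m) hdim (VV_inv O w v F) 
      (fun E hE g hg N hN h => conn hm O w v F E hE g hg N hN h) (dimB m + 1) E hEV (by omega) σ hall n hn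
    rw [hcard] at h1
    refine le_trans (le_of_eq ?_) h1
    apply congrArg (fun F : Finset (Fin n → Fin s × Bool) => (F.card : ℝ))
    ext u
    simp only [Finset.mem_filter, Finset.mem_univ, true_and]
    rw [hP, hzero, h0_gw hm]

/-- the diagrams are closed -/
theorem dia_closed (O : Outer m) (hO : O.close.IsClosed) (w : List (Letter m)) 
    (h : ∀ j, O.up (permW w j) = O.up j) : (dia O w).IsClosed := by
  show (draw O (toN w)).close.IsClosed
  rw [closed_iff] at hO ⊢
  have h2 := (draw_writhe (toN w) O (toN_lt _)).2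
  have h3 : (draw O (toN w)).up = O.up := by
    apply pat_inj
    rw [h2]
    funext i
    rw [Function.comp_apply]
    rcases Nat.lt_or_ge i m with hi | hi
    · have h4 := (permL_toN w).1 ⟨i, hi⟩
      simp only at h4
      rw [h4]
      unfold pat
      rw [dif_pos (Fin.is_lt _), dif_pos hi, Fin.eta, h]
    · rw [(permL_toN w).2 i hi]
  rw [h3]
  exact good_draw _ _ O hO

end Pool.Agent.Y463.RW
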