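import Pool.Agent.Y463.RW.Eis
import Pool.Agent.Y463.RW.Abs

/-!
# The polynomials of the products of given braids as functions on a free group
-/

set_option autoImplicit false

namespace Pool.Agent.Y463.RW

open Finset LaurentPolynomial Pool.Agent.H891R2.Jones Pool.Agent.W639.RB Pool.Agent.Y463.SK

/-! ### words of a free group -/

section free

variable {m s : ℕ}

/-- substitute the braid words `w i` for the letters -/
def exL (w : Fin s → List (Letter m)) (u : List (Fin s × Bool)) : List (Bool × ℕ) := 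
  (u.map (fun x => if x.2 then toN (w x.1) else invL (toN (w x.1)))).flatten

theorem exL_append (w : Fin s → List (Letter m)) (u v : List (Fin s × Bool)) : 
    exL w (u ++ v) = exL w u ++ exL w v := by simp [exL]

theorem exL_lt (w : Fin s → List (Letter m)) (u : List (Fin s × Bool)) : 
    ∀ x ∈ exL w u, x.2 + 1 < m := by
  intro x hx
  unfold exL at hx
  obtain ⟨l, hl, hx⟩ := List.mem_flatten.1 hx
  obtain ⟨y, _, rfl⟩ := List.mem_map.1 hl
  split_ifs at hx
  · exact toN_lt _ x hx
  · exact invL_lt (toN_lt _) x hx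

theorem eqv_red (w : Fin s → List (Letter m)) {u v : List (Fin s × Bool)} (h : FreeGroup.Red u v) : 
    Eqv m (exL w u) (exL w v) := by
  induction h with
  | refl => exact Eqv.refl _
  | tail _ hstep ih =>
    refine ih.trans ?_
    cases hstep with
    | @not L1 L2 x b =>
      rw [exL_append, exL_append]
      have h1 : exL w ((x, b) :: (x, !b) :: L2) = exL w [(x, b), (x, !b)] ++ exL w L2 := by
        rw [← exL_append]; rfl
      rw [h1]
      have h2 : Eqv m (exL w [(x, b), (x, !b)]) [] := by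
        cases b
        · have : exL w [(x, false), (x, !false)] = invL (toN (w x)) ++ toN (w x) := by
            simp [exL]
          rw [this]
          exact Eqv.inv' (toN_lt _)
        · have : exL w [(x, true), (x, !true)] = toN (w x) ++ invL (toN (w x)) := by
            simp [exL]
          rw [this]
          exact Eqv.inv (toN_lt _)
      exact Eqv.append (Eqv.refl _) (Eqv.append h2 (Eqv.refl _))

/-- the braid word of an element of the free group -/
def EE (w : Fin s → List (Letter m)) (γ : FreeGroup (Fin s)) : List (Bool × ℕ) := exL w γ.toWord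

theorem EE_lt (w : Fin s → List (Letter m)) (γ : FreeGroup (Fin s)) : ∀ x ∈ EE w γ, x.2 + 1 < m := 
  exL_lt w _

theorem EE_mk (w : Fin s → List (Letter m)) (u : List (Fin s × Bool)) : 
    Eqv m (EE w (FreeGroup.mk u)) (exL w u) := by
  unfold EE
  rw [FreeGroup.toWord_mk]
  exact (eqv_red w FreeGroup.reduce.red).symm

theorem EE_mul (w : Fin s → List (Letter m)) (γ δ : FreeGroup (Fin s)) : 
    Eqv m (EE w (γ * δ)) (EE w γ ++ EE w δ) := by
  have h1 : γ * δ = FreeGroup.mk (γ.toWord ++ δ.toWord) := by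
    rw [← FreeGroup.mul_mk, FreeGroup.mk_toWord, FreeGroup.mk_toWord]
  rw [h1]
  have h2 := EE_mk w (γ.toWord ++ δ.toWord)
  rw [exL_append] at h2
  exact h2

theorem EE_one (w : Fin s → List (Letter m)) : EE w 1 = [] := by
  unfold EE
  rw [FreeGroup.toWord_one]
  rfl

theorem EE_zpow (w : Fin s → List (Letter m)) (γ : FreeGroup (Fin s)) (n : ℤ) : 
    Eqv m (EE w (γ ^ n)) (powL (EE w γ) n) := by
  have hup : ∀ n : ℤ, Eqv m (EE w (γ ^ n)) (powL (EE w γ) n) ↔ 
      Eqv m (EE w (γ ^ (n+1))) (powL (EE w γ) (n+1)) := by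
    intro n
    have h1 : γ ^ (n+1) = γ * γ ^ n := by rw [add_comm, zpow_add, zpow_one]
    have h2 := EE_mul w γ (γ ^ n)
    have h3 := powL_succ (EE_lt w γ) n
    rw [h1]
    constructor
    · intro h
      exact (h2.trans (Eqv.append (Eqv.refl _) h)).trans h3.symm
    · intro h
      exact Eqv.cancel (EE_lt w γ) ((h2.symm.trans h).trans h3)
  have h0 : Eqv m (EE w (γ ^ (0:ℤ))) (powL (EE w γ) 0) := by
    rw [zpow_zero, EE_one]
    exact Eqv.refl _
  induction n using Int.induction_on with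
  | zero => exact h0
  | succ n ih => exact (hup _).1 ih
  | pred n ih =>
    have := (hup (-(n:ℤ) - 1)).2
    rw [sub_add_cancel] at this
    exact this ih

/-- the permutation as a homomorphism -/
def PH (w : Fin s → List (Letter m)) : FreeGroup (Fin s) →* Equiv.Perm ℕ where
  toFun γ := permL (EE w γ)
  map_one' := by rw [EE_one]; rfl
  map_mul' γ δ := by rw [(EE_mul w γ δ).2.1, permL_append]

/-- the polynomial -/
noncomputable def h0 (O : Outer m) (w : Fin s → List (Letter m)) (v : List (Letter m)) 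
    (γ : FreeGroup (Fin s)) : ℤ[T;T⁻¹] := ff O (EE w γ ++ toN v)

theorem EEv_lt (w : Fin s → List (Letter m)) (v : List (Letter m)) (γ : FreeGroup (Fin s)) : 
    ∀ x ∈ EE w γ ++ toN v, x.2 + 1 < m := by
  intro x hx
  rcases List.mem_append.1 hx with h | h
  · exact EE_lt w γ x h
  · exact toN_lt v x h

theorem h0_mul (hm : 0 < m) (O : Outer m) (w : Fin s → List (Letter m)) (v : List (Letter m)) 
    (γ δ : FreeGroup (Fin s)) : h0 O w v (γ * δ) = h0 (draw O (EE w γ)) w v δ := by
  unfold h0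
  have h1 : ff O (EE w (γ * δ) ++ toN v) = ff O (EE w γ ++ (EE w δ ++ toN v)) := by
    apply ff_congr hm O (EEv_lt w v _)
    · intro x hx
      rcases List.mem_append.1 hx with h | h
      · exact EE_lt w γ x h
      · exact EEv_lt w v δ x h
    · rw [← List.append_assoc]
      exact Eqv.append (EE_mul w γ δ) (Eqv.refl _)
  rw [h1]
  unfold ff
  rw [draw_append]

/-- (F3) -/
theorem h0_eis (hm : 0 < m) (O : Outer m) (w : Fin s → List (Letter m)) (v : List (Letter m)) 
    (γ g δ : FreeGroup (Fin s)) (hg : PH w g = 1) : Eis (fun n : ℤ => h0 O w v (γ * (g ^ n * δ))) := by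
  have h1 : ∀ n : ℤ, h0 O w v (γ * (g ^ n * δ)) = 
      ff (draw O (EE w γ)) (powL (EE w g) n ++ (EE w δ ++ toN v)) := by
    intro n
    rw [h0_mul hm]
    unfold h0
    apply ff_congr hm _ (EEv_lt w v _)
    · intro x hx
      rcases List.mem_append.1 hx with h | h
      · exact powL_lt (EE_lt w g) n x h
      · exact EEv_lt w v δ x h
    · rw [← List.append_assoc]
      exact Eqv.append ((EE_mul w (g ^ n) δ).trans (Eqv.append (EE_zpow w g n) (Eqv.refl _))) (Eqv.refl _)
  simp only [h1]
  exact seq_eis hm _ _ (EE_lt w g) hg _ (EEv_lt w v δ)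

end free

/-! ### the functional on the Temperley–Lieb algebra -/

section functional

variable {m : ℕ}

/-- (bracket of a diagram) -/
theorem coeff_word (hm : 0 < m) (O : Outer m) (w v : List (Bool × ℕ)) (hw : ∀ x ∈ w, x.2 + 1 < m)
    (hv : ∀ x ∈ v, x.2 + 1 < m) : 
    ∃ c : ℤ[T;T⁻¹], ∀ N : {N : ℕ // 3 ≤ N}, (N.1 : ℂ) * ev N.1 N.2 c = Fn O N v (bb m w) := by
  refine ⟨(draw O (w ++ v)).close.bracket, fun N => ?_⟩
  have : Nonempty (draw O (w ++ v)).P := ⟨(draw O (w ++ v)).lower ⟨0, hm⟩⟩
  have h1 := ev_bracket N.1 N.2 (draw O (w ++ v)).close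
  rw [h1, Z_close, Zg_draw (w ++ v) O (by
    intro x hx
    rcases List.mem_append.1 hx with h | h
    · exact hw x h
    · exact hv x h)]
  unfold Fn
  rw [bb_apply, rho_append]
  rfl

theorem coeff_adjoin (hm : 0 < m) (O : Outer m) (v : List (Bool × ℕ)) (hv : ∀ x ∈ v, x.2 + 1 < m)
    (x : BB m) (hx : x ∈ Algebra.adjoin ℤ[T;T⁻¹] (Set.range (EB m))) : 
    ∃ c : ℤ[T;T⁻¹], ∀ N : {N : ℕ // 3 ≤ N}, (N.1 : ℂ) * ev N.1 N.2 c = Fn O N v x := by
  -- the span of the words
  set W : Submodule ℤ[T;T⁻¹] (BB m) := Submodule.span ℤ[T;T⁻¹] 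
    {b | ∃ w : List (Bool × ℕ), (∀ x ∈ w, x.2 + 1 < m) ∧ b = bb m w} with hW
  have hone : (1 : BB m) ∈ W := Submodule.subset_span ⟨[], by simp, rfl⟩
  have hmul : ∀ x ∈ W, ∀ y ∈ W, x * y ∈ W := by
    intro x hx y hy
    induction hx using Submodule.span_induction with
    | zero => rw [zero_mul]; exact Submodule.zero_mem _
    | add a b _ _ ha hb => rw [add_mul]; exact Submodule.add_mem _ ha hb
    | smul r a _ ha => rw [smul_mul_assoc]; exact Submodule.smul_mem _ _ ha
    | mem a ha =>
      obtain ⟨w, hw, rfl⟩ := ha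
      induction hy using Submodule.span_induction with
      | zero => rw [mul_zero]; exact Submodule.zero_mem _
      | add a b _ _ ha hb => rw [mul_add]; exact Submodule.add_mem _ ha hb
      | smul r a _ ha => rw [mul_smul_comm]; exact Submodule.smul_mem _ _ ha
      | mem b hb =>
        obtain ⟨w', hw', rfl⟩ := hb
        refine Submodule.subset_span ⟨w ++ w', ?_, (bb_append m w w').symm⟩
        intro x hx
        rcases List.mem_append.1 hx with h | h
        · exact hw x h
        · exact hw' x h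
  have hE : ∀ i, EB m i ∈ W := by
    intro i
    rcases Nat.lt_or_ge (i + 1) m with hi | hi
    · have h1 : EB m i = (T 1 : ℤ[T;T⁻¹]) • bb m [(true, i)] - (T 2 : ℤ[T;T⁻¹]) • (1 : BB m) := by
        have h2 : bb m [(true, i)] = (T 1 : ℤ[T;T⁻¹]) • (1 : BB m) + (T (-1) : ℤ[T;T⁻¹]) • EB m i := by
          simp [bb, wd, ltr]
        rw [h2, smul_add, smul_smul, smul_smul, T_mul_inv, one_smul, ← T_add]
        norm_num
      rw [h1]
      exact Submodule.sub_mem _ (Submodule.smul_mem _ _ (Submodule.subset_span ⟨[(true, i)], by simpa using hi, rfl⟩)) 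
        (Submodule.smul_mem _ _ hone)
    · rw [EB_zero m i hi]; exact Submodule.zero_mem _
  have hxW : x ∈ W := by
    induction hx using Algebra.adjoin_induction with
    | mem b hb => obtain ⟨i, rfl⟩ := hb; exact hE i
    | algebraMap r => 
      rw [Algebra.algebraMap_eq_smul_one]
      exact Submodule.smul_mem _ _ hone
    | add b c _ _ hb hc => exact Submodule.add_mem _ hb hc
    | mul b c _ _ hb hc => exact hmul _ hb _ hc
  clear hx
  induction hxW using Submodule.span_induction with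
  | zero => exact ⟨0, fun N => by rw [map_zero, mul_zero, Fn_zero]⟩
  | add a b _ _ ha hb => 
    obtain ⟨c1, h1⟩ := ha
    obtain ⟨c2, h2⟩ := hb
    exact ⟨c1 + c2, fun N => by rw [map_add, mul_add, h1, h2, Fn_add]⟩
  | smul r a _ ha => 
    obtain ⟨c1, h1⟩ := ha
    exact ⟨r * c1, fun N => by rw [map_mul, mul_left_comm, h1, Fn_smul]⟩
  | mem a ha =>
    obtain ⟨w, hw, rfl⟩ := ha
    exact coeff_word hm O w v hw hv

/-- the normalising factor -/
noncomputable def chi (k : ℤ) : ℤ[T;T⁻¹] := (if Even k then 1 else -1) * T (-3 * k)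

theorem ev_chi (N : {N : ℕ // 3 ≤ N}) (k : ℤ) : 
    ev N.1 N.2 (chi k) = (if Even k then (1 : ℂ) else -1) * (Ar N.1) ^ (-3 * k) := by
  unfold chi
  rw [map_mul, ev_T]
  congr 1
  split_ifs <;> simp

theorem chi_add (a b : ℤ) : chi (a + b) = chi a * chi b := by
  unfold chi
  have h1 : (if Even (a + b) then (1 : ℤ[T;T⁻¹]) else -1) = 
      (if Even a then 1 else -1) * (if Even b then 1 else -1) := by
    by_cases ha : Even a <;> by_cases hb : Even b <;> simp [Int.even_add, ha, hb]
  rw [h1, show -3 * (a + b) = -3 * a + -3 * b by ring, T_add]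
  ring

theorem wl_len (hm : 0 < m) : (wl (EB m) (m - 1)).length = m.factorial := by
  rw [wl_length]
  have h : m - 1 + 1 = m := by omega
  rw [h]

/-- the elements of the spanning list -/
noncomputable def wj (hm : 0 < m) (j : Fin (m.factorial)) : BB m := 
  (wl (EB m) (m - 1)).get ⟨j, by rw [wl_len hm]; exact j.2⟩

theorem wj_mem (hm : 0 < m) (j : Fin (m.factorial)) : wj hm j ∈ wl (EB m) (m - 1) := List.get_mem _ _

theorem mem_adjoin_repr (x : BB m) (hm : 0 < m) (hx : x ∈ Algebra.adjoin ℤ[T;T⁻¹] (Set.range (EB m))) : 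
    ∃ r : Fin (m.factorial) → ℤ[T;T⁻¹], 
      x = ∑ j, r j • wj hm j := by
  have h1 : x ∈ SS ℤ[T;T⁻¹] (EB m) (m - 1) := by
    rw [← adjoin_eq (isTLr_EB m) hm (EB_zero m)]
    exact hx
  unfold SS at h1
  have h2 : ({x | x ∈ wl (EB m) (m - 1)} : Set (BB m)) = Set.range (wj hm) := by
    apply Set.ext
    intro y
    constructor
    · intro hy
      obtain ⟨i, hi⟩ := List.get_of_mem (show y ∈ wl (EB m) (m - 1) from hy)
      exact ⟨⟨i, by rw [← wl_len hm]; exact i.2⟩, hi⟩
    · rintro ⟨j, rfl⟩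
      exact wj_mem hm j
  rw [h2, Submodule.mem_span_range_iff_exists_fun] at h1
  obtain ⟨c, hc⟩ := h1
  exact ⟨c, hc.symm⟩

theorem bb_mem (w : List (Bool × ℕ)) : bb m w ∈ Algebra.adjoin ℤ[T;T⁻¹] (Set.range (EB m)) := by
  induction w with
  | nil => exact Subalgebra.one_mem _
  | cons x w ih =>
    have h2 : bb m (x :: w) = ltr (T 1 : ℤ[T;T⁻¹]) (T (-1)) (EB m) x * bb m w := by simp [bb, wd]
    rw [h2]
    refine Subalgebra.mul_mem _ ?_ ih
    have hE : EB m x.2 ∈ Algebra.adjoin ℤ[T;T⁻¹] (Set.range (EB m)) := 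
      Algebra.subset_adjoin ⟨x.2, rfl⟩
    unfold ltr
    split_ifs
    · exact Subalgebra.add_mem _ (Subalgebra.smul_mem _ (Subalgebra.one_mem _) _) 
        (Subalgebra.smul_mem _ hE _)
    · exact Subalgebra.add_mem _ (Subalgebra.smul_mem _ (Subalgebra.one_mem _) _) 
        (Subalgebra.smul_mem _ hE _)

end functional

/-! ### finite dimension -/

section dim

variable {m s : ℕ}

/-- coefficients of the braids with respect to the spanning list -/
noncomputable def rj (hm : 0 < m) (w : Fin s → List (Letter m)) (γ : FreeGroup (Fin s)) : 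
    Fin (m.factorial) → ℤ[T;T⁻¹] := 
  Classical.choose (mem_adjoin_repr (bb m (EE w γ)) hm (bb_mem _))

theorem rj_spec (hm : 0 < m) (w : Fin s → List (Letter m)) (γ : FreeGroup (Fin s)) : 
    bb m (EE w γ) = ∑ j, rj hm w γ j • wj hm j := 
  Classical.choose_spec (mem_adjoin_repr (bb m (EE w γ)) hm (bb_mem _))

/-- the basic functions -/
noncomputable def Psi (hm : 0 < m) (w : Fin s → List (Letter m)) (v : List (Letter m)) 
    (j : Fin (m.factorial)) (U : Fin m → Bool) (γ : FreeGroup (Fin s)) : ℤ[T;T⁻¹] := 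
  chi (costS (EE w γ ++ toN v) (pat U)) * rj hm w γ j

/-- every function `h0` is a combination of basic functions -/
theorem h0_repr (hm : 0 < m) (O : Outer m) (w : Fin s → List (Letter m)) (v : List (Letter m)) : 
    ∃ c : Fin (m.factorial) → ℤ[T;T⁻¹], ∀ γ, h0 O w v γ = ∑ j, c j * Psi hm w v j O.up γ := by
  have hb : ∀ j : Fin (m.factorial), ∃ c : ℤ[T;T⁻¹], ∀ N : {N : ℕ // 3 ≤ N}, 
      (N.1 : ℂ) * ev N.1 N.2 c = Fn O N (toN v) (wj hm j) := fun j =>
    coeff_adjoin hm O (toN v) (toN_lt v) (wj hm j) (wl_mem_adjoin (m - 1) _ (wj_mem hm j))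
  choose c hc using hb
  refine ⟨fun j => chi (owr O) * c j, fun γ => ?_⟩
  rw [← sub_eq_zero]
  apply eq_zero_of_ev
  intro N hN
  have hNC : (N : ℂ) ≠ 0 := by
    rw [Nat.cast_ne_zero]; omega
  have h1 := ev_ff hm O (EE w γ ++ toN v) (EEv_lt w v γ) ⟨N, hN⟩
  simp only at h1
  have h2 : Zg (Ar N) N O (rho (Ar N) m N (EE w γ ++ toN v) (fun x y => ind (x = y))) = 
      ∑ j, ev N hN (rj hm w γ j) * ((N : ℂ) * ev N hN (c j)) := by
    have h3 : Zg (Ar N) N O (rho (Ar N) m N (EE w γ ++ toN v) (fun x y => ind (x = y))) = 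
        Fn O ⟨N, hN⟩ (toN v) (bb m (EE w γ)) := by
      unfold Fn
      rw [bb_apply, rho_append]
      rfl
    rw [h3, rj_spec hm w γ]
    have h4 : ∀ (S : Finset (Fin (m.factorial))) (g : Fin (m.factorial) → BB m), 
        Fn O ⟨N, hN⟩ (toN v) (∑ i ∈ S, g i) = ∑ i ∈ S, Fn O ⟨N, hN⟩ (toN v) (g i) := by
      classical
      intro S g
      induction S using Finset.induction_on with
      | empty => simp [Fn_zero]
      | insert a S ha ih => rw [Finset.sum_insert ha, Finset.sum_insert ha, Fn_add, ih]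
    rw [h4]
    refine Finset.sum_congr rfl fun j _ => ?_
    rw [Fn_smul]
    have := hc j ⟨N, hN⟩
    simp only at this
    rw [this]
  rw [h2] at h1
  have h5 : ((if Even (owr O + costS (EE w γ ++ toN v) (pat O.up)) then (1 : ℂ) else -1) * 
        (Ar N) ^ (-3 * (owr O + costS (EE w γ ++ toN v) (pat O.up)))) = 
      ev N hN (chi (owr O)) * ev N hN (chi (costS (EE w γ ++ toN v) (pat O.up))) := by
    rw [← map_mul, ← chi_add]
    exact (ev_chi ⟨N, hN⟩ _).symm
  rw [h5] at h1
  have h6 : (N : ℂ) * ev N hN (h0 O w v γ - ∑ j, chi (owr O) * c j * Psi hm w v j O.up γ) = 0 := by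
    rw [map_sub, mul_sub, map_sum]
    unfold h0
    rw [h1, Finset.mul_sum, Finset.mul_sum, sub_eq_zero]
    refine Finset.sum_congr rfl fun j _ => ?_
    unfold Psi
    simp only [map_mul]
    ring
  exact (mul_eq_zero.1 h6).resolve_left hNC

/-- the field -/
abbrev KK : Type := FractionRing ℤ[T;T⁻¹]

/-- the function whose zeros are counted -/
noncomputable def hF (O : Outer m) (w : Fin s → List (Letter m)) (v : List (Letter m)) 
    (F : ℤ[T;T⁻¹]) : FreeGroup (Fin s) → KK := fun γ => algebraMap ℤ[T;T⁻¹] KK (h0 O w v γ - F)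

/-- the space of its translates -/
noncomputable def VV (O : Outer m) (w : Fin s → List (Letter m)) (v : List (Letter m)) 
    (F : ℤ[T;T⁻¹]) : Submodule KK (FreeGroup (Fin s) → KK) := 
  Submodule.span KK (Set.range (fun g => sh KK g (hF O w v F)))

/-- the basic functions together with the constant function -/
noncomputable def Bas (hm : 0 < m) (w : Fin s → List (Letter m)) (v : List (Letter m)) : 
    Option (Fin (m.factorial) × (Fin m → Bool)) → (FreeGroup (Fin s) → KK)
  | none => fun _ => 1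
  | some p => fun γ => algebraMap ℤ[T;T⁻¹] KK (Psi hm w v p.1 p.2 γ)

theorem VV_le (hm : 0 < m) (O : Outer m) (w : Fin s → List (Letter m)) (v : List (Letter m)) 
    (F : ℤ[T;T⁻¹]) : VV O w v F ≤ Submodule.span KK (Set.range (Bas hm w v)) := by
  unfold VV
  rw [Submodule.span_le]
  rintro _ ⟨g, rfl⟩
  obtain ⟨c, hc⟩ := h0_repr hm (draw O (EE w g⁻¹)) w v
  have h1 : sh KK g (hF O w v F) = ∑ j, (algebraMap ℤ[T;T⁻¹] KK (c j)) • 
      Bas hm w v (some (j, (draw O (EE w g⁻¹)).up)) - (algebraMap ℤ[T;T⁻¹] KK F) • Bas hm w v none := by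
    funext γ
    rw [sh_apply]
    unfold hF
    rw [h0_mul hm, hc γ, map_sub, map_sum, Pi.sub_apply, Finset.sum_apply]
    congr 1
    · refine Finset.sum_congr rfl fun j _ => ?_
      rw [map_mul]
      rfl
    · rw [Pi.smul_apply]
      simp [Bas]
  rw [SetLike.mem_coe]
  show sh KK g (hF O w v F) ∈ _
  rw [h1]
  refine Submodule.sub_mem _ (Submodule.sum_mem _ fun j _ => Submodule.smul_mem _ _ 
    (Submodule.subset_span ⟨_, rfl⟩)) (Submodule.smul_mem _ _ (Submodule.subset_span ⟨_, rfl⟩))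

/-- the bound of the dimension -/
def dimB (m : ℕ) : ℕ := m.factorial * 2 ^ m + 1

theorem VV_fin (hm : 0 < m) (O : Outer m) (w : Fin s → List (Letter m)) (v : List (Letter m)) 
    (F : ℤ[T;T⁻¹]) : FiniteDimensional KK (VV O w v F) ∧ 
      Module.finrank KK (VV O w v F) ≤ dimB m := by
  have hfin : FiniteDimensional KK (Submodule.span KK (Set.range (Bas hm w v))) := 
    FiniteDimensional.span_of_finite KK (Set.finite_range _)
  have h1 := VV_le hm O w v F
  refine ⟨Submodule.finiteDimensional_of_le h1, ?_⟩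
  refine (Submodule.finrank_mono h1).trans ?_
  refine (finrank_range_le_card (R := KK) (Bas hm w v)).trans ?_
  rw [Fintype.card_option, Fintype.card_prod, Fintype.card_fin, Fintype.card_fun, Fintype.card_bool,
    Fintype.card_fin]
  exact le_rfl

theorem VV_inv (O : Outer m) (w : Fin s → List (Letter m)) (v : List (Letter m)) 
    (F : ℤ[T;T⁻¹]) (g : FreeGroup (Fin s)) : (VV O w v F).map (sh KK g) ≤ VV O w v F := by
  unfold VV
  rw [Submodule.map_span, Submodule.span_le]
  rintro _ ⟨_, ⟨g', rfl⟩, rfl⟩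
  rw [SetLike.mem_coe]
  apply Submodule.subset_span
  refine ⟨g * g', ?_⟩
  show sh KK (g * g') (hF O w v F) = _
  rw [sh_mul]
  rfl

end dim

end Pool.Agent.Y463.RW
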