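import Mathlib

/-!
# Random walks on infinite Schreier graphs

For a finite symmetric family of permutations `T a` of a set `X` and a point `x0` with infinite orbit the
probability that two independent random walks of length `n` starting at `x0` end at the same point is
`O(n^(-1/3))`, with a constant depending only on the number of the permutations.
-/

set_option autoImplicit false

namespace Pool.Agent.Y463.RW

open Finset

section energy

variable {L X : Type*} [Fintype L] 

/-- the averaging operator -/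
noncomputable def Av (T : L → Equiv.Perm X) (f : X → ℝ) (y : X) : ℝ := 
  (∑ a, f (T a y)) / (Fintype.card L : ℝ)

theorem fs_comp (e : Equiv.Perm X) {f : X → ℝ} (hf : f.HasFiniteSupport) : 
    (fun y => f (e y)).HasFiniteSupport := by
  have : (fun y => f (e y)).support = e ⁻¹' f.support := rfl
  unfold Function.HasFiniteSupport
  rw [this]
  exact Set.Finite.preimage e.injective.injOn hf

theorem fs_mul {f g : X → ℝ} (hf : f.HasFiniteSupport) : 
    (fun y => f y * g y).HasFiniteSupport := by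
  apply Set.Finite.subset hf
  intro y hy
  rw [Function.mem_support] at hy ⊢
  exact left_ne_zero_of_mul hy

theorem smm {f : X → ℝ} (hf : f.HasFiniteSupport) : Summable f := summable_of_hasFiniteSupport hf

theorem Av_sq (T : L → Equiv.Perm X) [Nonempty L] {f : X → ℝ} (hf : f.HasFiniteSupport) :
    ∑' y, (Av T f y)^2 = ∑' y, (f y)^2 - 
      (∑ a, ∑ b, ∑' y, (f (T a y) - f (T b y))^2) / (2 * (Fintype.card L : ℝ)^2) := by
  classical
  have hq : (0 : ℝ) < Fintype.card L := by exact_mod_cast Fintype.card_pos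
  have hs1 : ∀ a, Summable (fun y => (f (T a y))^2) := by
    intro a
    have : (fun y => (f (T a y))^2) = fun y => f (T a y) * f (T a y) := by funext y; ring
    rw [this]
    exact smm (fs_mul (fs_comp (T a) hf))
  have hs2 : ∀ a b, Summable (fun y => f (T a y) * f (T b y)) := fun a b => 
    smm (fs_mul (fs_comp (T a) hf))
  have h1 : ∀ a, ∑' y, (f (T a y))^2 = ∑' y, (f y)^2 := fun a => (T a).tsum_eq (fun y => (f y)^2)
  have h2 : ∀ a b, ∑' y, (f (T a y) - f (T b y))^2 = 
      2 * ∑' y, (f y)^2 - 2 * ∑' y, f (T a y) * f (T b y) := by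
    intro a b
    have e : ∀ y, (f (T a y) - f (T b y))^2 = ((f (T a y))^2 + (f (T b y))^2) - 
      2 * (f (T a y) * f (T b y)) := by intro y; ring
    simp only [e]
    rw [Summable.tsum_sub ((hs1 a).add (hs1 b)) ((hs2 a b).mul_left 2), 
      Summable.tsum_add (hs1 a) (hs1 b), h1, h1, tsum_mul_left]
    ring
  have h3 : ∑' y, (Av T f y)^2 = (∑ a, ∑ b, ∑' y, f (T a y) * f (T b y)) / (Fintype.card L : ℝ)^2 := by
    have e : ∀ y, (Av T f y)^2 = (∑ a, ∑ b, f (T a y) * f (T b y)) / (Fintype.card L : ℝ)^2 := by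
      intro y
      unfold Av
      rw [div_pow, sq (∑ a, f (T a y)), Finset.sum_mul_sum]
    simp only [e]
    rw [tsum_div_const]
    congr 1
    rw [Summable.tsum_finsetSum (fun a _ => summable_sum (fun b _ => hs2 a b))]
    refine Finset.sum_congr rfl fun a _ => ?_
    rw [Summable.tsum_finsetSum (fun b _ => hs2 a b)]
  rw [h3]
  simp only [h2]
  rw [Finset.sum_congr rfl (fun a _ => Finset.sum_sub_distrib _ _)]
  rw [Finset.sum_sub_distrib]
  simp only [Finset.sum_const, Finset.card_univ, nsmul_eq_mul, ← Finset.mul_sum]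
  field_simp
  ring

end energy

section balls

variable {L X : Type*} [Fintype L] [Nonempty L]

open Classical in
/-- balls for the steps `T a (T b)⁻¹` -/
noncomputable def ball (T : L → Equiv.Perm X) (y0 : X) : ℕ → Finset X
  | 0 => {y0}
  | (k+1) => (univ : Finset (L × L)).biUnion (fun ab => (ball T y0 k).image (fun z => T ab.1 ((T ab.2)⁻¹ z)))

theorem ball_mono (T : L → Equiv.Perm X) (y0 : X) (k : ℕ) : ball T y0 k ⊆ ball T y0 (k+1) := by
  classical
  intro z hz
  rw [ball, Finset.mem_biUnion]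
  obtain ⟨a⟩ := (inferInstance : Nonempty L)
  refine ⟨(a, a), Finset.mem_univ _, ?_⟩
  rw [Finset.mem_image]
  exact ⟨z, hz, by simp⟩

theorem mem_ball_zero (T : L → Equiv.Perm X) (y0 : X) (k : ℕ) : y0 ∈ ball T y0 k := by
  induction k with
  | zero => simp [ball]
  | succ k ih => exact ball_mono T y0 k ih

/-- points with infinite orbit -/
def InfOrbit (T : L → Equiv.Perm X) (y0 : X) : Prop := 
  ∀ C : Finset X, y0 ∈ C → ∃ a, ∃ z ∈ C, T a z ∉ C

theorem card_ball (T : L → Equiv.Perm X) (inv : L → L) (hinv : ∀ a, T (inv a) = (T a)⁻¹) (y0 : X) 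
    (hinf : InfOrbit T y0) (k : ℕ) : k + 1 ≤ (ball T y0 k).card := by
  classical
  induction k with
  | zero => simp [ball]
  | succ k ih =>
    have h1 : ball T y0 k ≠ ball T y0 (k+1) := by
      intro heq
      -- a finite closed set
      have hcl : ∀ a b, ∀ z ∈ ball T y0 k, T a ((T b)⁻¹ z) ∈ ball T y0 k := by
        intro a b z hz
        rw [heq, ball, Finset.mem_biUnion]
        exact ⟨(a, b), Finset.mem_univ _, Finset.mem_image.2 ⟨z, hz, rfl⟩⟩
      obtain ⟨a, z, hz, hza⟩ := hinf (ball T y0 k ∪ 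
        (univ : Finset L).biUnion (fun a => (ball T y0 k).image (T a))) 
        (Finset.mem_union_left _ (mem_ball_zero T y0 k))
      apply hza
      rw [Finset.mem_union] at hz ⊢
      rcases hz with hz | hz
      · right
        rw [Finset.mem_biUnion]
        exact ⟨a, Finset.mem_univ _, Finset.mem_image.2 ⟨z, hz, rfl⟩⟩
      · left
        rw [Finset.mem_biUnion] at hz
        obtain ⟨b, _, hz⟩ := hz
        obtain ⟨z', hz', rfl⟩ := Finset.mem_image.1 hz
        have := hcl a (inv b) z' hz'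
        rwa [hinv, inv_inv] at this
    have h2 : (ball T y0 k) ⊂ ball T y0 (k+1) := 
      lt_of_le_of_ne (ball_mono T y0 k) h1
    have := Finset.card_lt_card h2
    omega

theorem ball_lip (T : L → Equiv.Perm X) (y0 : X) (f : X → ℝ) (ε : ℝ)
    (h : ∀ a b y, |f (T a y) - f (T b y)| ≤ ε) (k : ℕ) : ∀ z ∈ ball T y0 k, |f z - f y0| ≤ k * ε := by
  classical
  induction k with
  | zero => intro z hz; simp [ball] at hz; simp [hz]
  | succ k ih =>
    intro z hz
    rw [ball, Finset.mem_biUnion] at hz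
    obtain ⟨ab, _, hz⟩ := hz
    obtain ⟨z', hz', rfl⟩ := Finset.mem_image.1 hz
    have h1 := ih z' hz'
    have h2 := h ab.1 ab.2 ((T ab.2)⁻¹ z')
    rw [show (T ab.2) ((T ab.2)⁻¹ z') = z' from (T ab.2).apply_symm_apply z'] at h2
    have h3 : |f (T ab.1 ((T ab.2)⁻¹ z')) - f y0| ≤ 
      |f (T ab.1 ((T ab.2)⁻¹ z')) - f z'| + |f z' - f y0| := abs_sub_le _ _ _
    push_cast
    linarith

/-- one steep edge -/
theorem steep (T : L → Equiv.Perm X) (inv : L → L) (hinv : ∀ a, T (inv a) = (T a)⁻¹) (y0 : X) 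
    (hinf : InfOrbit T y0) (f : X → ℝ) (hf : f.HasFiniteSupport) (hnn : ∀ y, 0 ≤ f y) 
    (hsum : ∑' y, f y = 1) (hpos : 0 < f y0) : 
    ∃ a b y, (f y0)^2 / 4 ≤ |f (T a y) - f (T b y)| := by
  classical
  by_contra hcon
  push Not at hcon
  set M := f y0 with hM
  -- the set where f is large
  have hfin : {y | M / 2 ≤ f y}.Finite := by
    apply Set.Finite.subset hf
    intro y hy
    rw [Function.mem_support]
    have : M / 2 ≤ f y := hy
    intro h0
    rw [h0] at this
    linarith
  set Af := hfin.toFinset with hAf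
  have hcard : (Af.card : ℝ) * (M / 2) ≤ 1 := by
    rw [← hsum]
    have h1 : ∑ y ∈ Af, f y ≤ ∑' y, f y := Summable.sum_le_tsum Af (fun y _ => hnn y) (smm hf)
    have h2 : (Af.card : ℝ) * (M / 2) ≤ ∑ y ∈ Af, f y := by
      rw [← nsmul_eq_mul]
      apply Finset.card_nsmul_le_sum
      intro y hy
      rw [hAf, Set.Finite.mem_toFinset] at hy
      exact hy
    linarith
  have h3 : ∃ z ∈ ball T y0 Af.card, z ∉ Af := by
    by_contra hcon2
    push Not at hcon2
    have h4 := Finset.card_le_card (show ball T y0 Af.card ⊆ Af from hcon2)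
    have h5 := card_ball T inv hinv y0 hinf Af.card
    omega
  obtain ⟨z, hz, hzA⟩ := h3
  have h4 : f z < M / 2 := by
    by_contra h
    push Not at h
    exact hzA (by rw [hAf, Set.Finite.mem_toFinset]; exact h)
  have h5 := ball_lip T y0 f (M^2/4) (fun a b y => (hcon a b y).le) Af.card z hz
  have h6 : f y0 - f z ≤ |f z - f y0| := by
    rw [abs_sub_comm]; exact le_abs_self _
  have h7 : (Af.card : ℝ) * (M^2/4) ≤ M / 2 := by
    have : (Af.card : ℝ) * (M^2/4) = ((Af.card : ℝ) * (M / 2)) * (M / 2) := by ring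
    rw [this]
    nlinarith
  rw [← hM] at h5 h6
  linarith

/-- the decrease of the energy -/
theorem energy_dec (T : L → Equiv.Perm X) (inv : L → L) (hinv : ∀ a, T (inv a) = (T a)⁻¹) 
    (f : X → ℝ) (hf : f.HasFiniteSupport) (hnn : ∀ y, 0 ≤ f y) 
    (hsum : ∑' y, f y = 1) (hinf : ∀ y, 0 < f y → InfOrbit T y) : 
    ∑' y, (Av T f y)^2 ≤ ∑' y, (f y)^2 - (∑' y, (f y)^2)^4 / (32 * (Fintype.card L : ℝ)^2) := by
  classical
  have hq : (0 : ℝ) < Fintype.card L := by exact_mod_cast Fintype.card_pos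
  -- a maximum
  have hne : ∃ y, 0 < f y := by
    by_contra hcon
    push Not at hcon
    have : ∀ y, f y = 0 := fun y => le_antisymm (hcon y) (hnn y)
    simp [this] at hsum
  obtain ⟨y1, hy1⟩ := hne
  obtain ⟨y0, hy0, hmax⟩ := Finset.exists_max_image (Set.Finite.toFinset hf) f 
    ⟨y1, by rw [Set.Finite.mem_toFinset, Function.mem_support]; exact hy1.ne'⟩
  have hy0pos : 0 < f y0 := by
    rw [Set.Finite.mem_toFinset, Function.mem_support] at hy0
    exact lt_of_le_of_ne (hnn y0) hy0.symm
  have hle : ∀ y, f y ≤ f y0 := by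
    intro y
    by_cases hy : f y = 0
    · rw [hy]; exact hy0pos.le
    · exact hmax y (by rw [Set.Finite.mem_toFinset, Function.mem_support]; exact hy)
  obtain ⟨a, b, y, hab⟩ := steep T inv hinv y0 (hinf y0 hy0pos) f hf hnn hsum hy0pos
  have hs : ∀ a b, Summable (fun y => (f (T a y) - f (T b y))^2) := by
    intro a b
    apply smm
    apply Set.Finite.subset ((fs_comp (T a) hf).union (fs_comp (T b) hf))
    intro y hy
    rw [Set.mem_union, Function.mem_support, Function.mem_support]
    rw [Function.mem_support] at hy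
    by_contra hcon
    push Not at hcon
    apply hy
    rw [hcon.1, hcon.2]
    norm_num
  have hQ : ∑' y, (f y)^2 ≤ f y0 := by
    have h1 : ∑' y, (f y)^2 ≤ ∑' y, f y0 * f y := by
      apply Summable.tsum_le_tsum
      · intro y
        have := hle y
        have := hnn y
        nlinarith
      · have : (fun y => (f y)^2) = fun y => f y * f y := by funext y; ring
        rw [this]
        exact smm (fs_mul hf)
      · exact (smm hf).mul_left _
    rwa [tsum_mul_left, hsum, mul_one] at h1
  have hQ0 : 0 ≤ ∑' y, (f y)^2 := tsum_nonneg (fun y => sq_nonneg _)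
  have hsumab : (f y0 ^ 2 / 4)^2 ≤ ∑ a, ∑ b, ∑' y, (f (T a y) - f (T b y))^2 := by
    have h1 : ∀ a b, 0 ≤ ∑' y, (f (T a y) - f (T b y))^2 := fun a b => tsum_nonneg (fun y => sq_nonneg _)
    have h2 : ∑' y, (f (T a y) - f (T b y))^2 ≤ ∑ a, ∑ b, ∑' y, (f (T a y) - f (T b y))^2 := by
      refine le_trans ?_ (Finset.single_le_sum (f := fun a => ∑ b, ∑' y, (f (T a y) - f (T b y))^2) 
        (fun a _ => Finset.sum_nonneg (fun b _ => h1 a b)) (Finset.mem_univ a))
      exact Finset.single_le_sum (f := fun b => ∑' y, (f (T a y) - f (T b y))^2) 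
        (fun b _ => h1 a b) (Finset.mem_univ b)
    have h3 : (f (T a y) - f (T b y))^2 ≤ ∑' y, (f (T a y) - f (T b y))^2 := 
      Summable.le_tsum (hs a b) y (fun _ _ => sq_nonneg _)
    have h4 : (f y0 ^ 2 / 4)^2 ≤ (f (T a y) - f (T b y))^2 := by
      rw [← sq_abs (f (T a y) - f (T b y))]
      exact pow_le_pow_left₀ (by positivity) hab 2
    linarith
  rw [Av_sq T hf]
  have h5 : (∑' y, (f y)^2)^4 / (32 * (Fintype.card L : ℝ)^2) ≤ 
      (∑ a, ∑ b, ∑' y, (f (T a y) - f (T b y))^2) / (2 * (Fintype.card L : ℝ)^2) := by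
    rw [div_le_div_iff₀ (by positivity) (by positivity)]
    have h6 : (∑' y, (f y)^2)^4 ≤ (f y0)^4 := pow_le_pow_left₀ hQ0 hQ 4
    have h7 : (f y0)^4 ≤ 16 * ∑ a, ∑ b, ∑' y, (f (T a y) - f (T b y))^2 := by nlinarith
    have h8 : (0:ℝ) < (Fintype.card L : ℝ)^2 := by positivity
    nlinarith
  linarith

end balls

/-! ### the numerical recursion -/

theorem recursion (κ : ℝ) (hκ : 0 < κ) (hκ1 : κ ≤ 1) (a : ℕ → ℝ) (h0 : ∀ n, 0 ≤ a n) (h1 : a 0 ≤ 1) 
    (hr : ∀ n, a (n+1) ≤ a n - κ * a n ^ 4) (n : ℕ) : a n ^ 3 * (1 + 3 * κ * n) ≤ 1 := by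
  have hle1 : ∀ n, a n ≤ 1 := by
    intro n
    induction n with
    | zero => exact h1
    | succ n ih =>
      have := hr n
      have h2 : 0 ≤ κ * a n ^ 4 := by positivity
      linarith
  induction n with
  | zero => 
    have := pow_le_one₀ (h0 0) h1 (n := 3)
    simpa using this
  | succ n ih =>
    set x := κ * a n ^ 3 with hx
    have hx0 : 0 ≤ x := by have := h0 n; positivity
    have hx1 : x ≤ 1 := by
      have h2 : a n ^ 3 ≤ 1 := pow_le_one₀ (h0 n) (hle1 n)
      have h3 : 0 ≤ a n ^ 3 := by have := h0 n; positivity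
      nlinarith
    have h2 : a (n+1) ≤ a n * (1 - x) := by
      have := hr n
      rw [hx]
      linarith [this, show a n * (1 - κ * a n ^ 3) = a n - κ * a n ^ 4 by ring]
    have h3 : a (n+1) ^ 3 ≤ (a n * (1 - x)) ^ 3 := pow_le_pow_left₀ (h0 _) h2 3
    have h4 : (1 - x)^3 * (1 + 3 * x) ≤ 1 := by
      have : 1 - (1 - x)^3 * (1 + 3 * x) = x^2 * (3 * (x - 4/3)^2 + 2/3) := by ring
      have h5 : 0 ≤ x^2 * (3 * (x - 4/3)^2 + 2/3) := by positivity
      linarith
    have h5 : 0 ≤ (1 - x)^3 := by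
      have : 0 ≤ 1 - x := by linarith
      positivity
    have h6 : a n ^ 3 * (1 + 3 * κ * ((n + 1 : ℕ) : ℝ)) ≤ 1 + 3 * x := by
      push_cast
      have : a n ^ 3 * (1 + 3 * κ * (n + 1)) = a n ^ 3 * (1 + 3 * κ * n) + 3 * x := by rw [hx]; ring
      linarith
    have h7 : 0 ≤ 1 + 3 * κ * ((n + 1 : ℕ) : ℝ) := by positivity
    calc a (n+1) ^ 3 * (1 + 3 * κ * ((n + 1 : ℕ) : ℝ)) 
        ≤ (a n * (1 - x)) ^ 3 * (1 + 3 * κ * ((n + 1 : ℕ) : ℝ)) := mul_le_mul_of_nonneg_right h3 h7
      _ = (1 - x)^3 * (a n ^ 3 * (1 + 3 * κ * ((n + 1 : ℕ) : ℝ))) := by ring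
      _ ≤ (1 - x)^3 * (1 + 3 * x) := mul_le_mul_of_nonneg_left h6 h5
      _ ≤ 1 := h4

/-! ### counting words -/

section words

variable {L X : Type*} [Fintype L] [Nonempty L]

/-- the end point of the walk of a word -/
def pt (T : L → Equiv.Perm X) (x0 : X) {n : ℕ} (u : Fin n → L) : X := 
  ((List.ofFn (fun i => T (u i))).prod)⁻¹ x0

theorem pt_snoc (T : L → Equiv.Perm X) (x0 : X) {n : ℕ} (u : Fin n → L) (a : L) : 
    pt T x0 (Fin.snoc (α := fun _ => L) u a : Fin (n+1) → L) = (T a)⁻¹ (pt T x0 u) := by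
  unfold pt
  rw [List.ofFn_succ']
  simp only [Fin.snoc_castSucc, Fin.snoc_last, List.concat_eq_append, List.prod_append, 
    List.prod_singleton, mul_inv_rev, Equiv.Perm.mul_apply]

open Classical in
/-- the number of words of length `n` ending at `y` -/
noncomputable def cnt (T : L → Equiv.Perm X) (x0 : X) (n : ℕ) (y : X) : ℕ := 
  (univ.filter (fun u : Fin n → L => pt T x0 u = y)).card

theorem cnt_succ (T : L → Equiv.Perm X) (x0 : X) (n : ℕ) (y : X) : 
    cnt T x0 (n+1) y = ∑ a, cnt T x0 n (T a y) := by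
  classical
  unfold cnt
  have h1 : ∀ a, (univ.filter (fun u : Fin n → L => pt T x0 u = T a y)).card = 
      (univ.filter (fun p : L × (Fin n → L) => p.1 = a ∧ pt T x0 p.2 = T p.1 y)).card := by
    intro a
    apply Finset.card_bij (fun u _ => (a, u))
    · intro u hu
      simp only [Finset.mem_filter, Finset.mem_univ, true_and] at hu ⊢
      exact hu
    · intro u _ v _ h
      exact (Prod.mk.inj h).2
    · intro p hp
      simp only [Finset.mem_filter, Finset.mem_univ, true_and] at hp
      refine ⟨p.2, ?_, ?_⟩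
      · simp only [Finset.mem_filter, Finset.mem_univ, true_and]
        rw [hp.2, hp.1]
      · rw [← hp.1]
  have h2 : (univ.filter (fun u : Fin (n+1) → L => pt T x0 u = y)).card = 
      (univ.filter (fun p : L × (Fin n → L) => pt T x0 p.2 = T p.1 y)).card := by
    symm
    apply Finset.card_equiv (Fin.snocEquiv (fun _ => L))
    intro p
    simp only [Finset.mem_filter, Finset.mem_univ, true_and]
    have h3 : pt T x0 (Fin.snocEquiv (fun _ => L) p) = (T p.1)⁻¹ (pt T x0 p.2) := 
      pt_snoc T x0 p.2 p.1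
    rw [h3, Equiv.Perm.inv_eq_iff_eq]
  rw [h2]
  simp only [h1]
  rw [Finset.card_eq_sum_card_fiberwise (f := fun p : L × (Fin n → L) => p.1) (t := univ) 
    (fun _ _ => Finset.mem_coe.2 (Finset.mem_univ _))]
  refine Finset.sum_congr rfl fun a _ => ?_
  congr 1
  ext p
  simp only [Finset.mem_filter, Finset.mem_univ, true_and]
  exact and_comm

/-- the distribution -/
noncomputable def pp (T : L → Equiv.Perm X) (x0 : X) (n : ℕ) (y : X) : ℝ := 
  (cnt T x0 n y : ℝ) / (Fintype.card L : ℝ) ^ n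

theorem pp_succ (T : L → Equiv.Perm X) (x0 : X) (n : ℕ) (y : X) : 
    pp T x0 (n+1) y = Av T (pp T x0 n) y := by
  have hq : (0 : ℝ) < Fintype.card L := by exact_mod_cast Fintype.card_pos
  unfold pp Av
  rw [cnt_succ, ← Finset.sum_div]
  push_cast
  rw [pow_succ]
  field_simp

theorem pp_fs (T : L → Equiv.Perm X) (x0 : X) (n : ℕ) : (pp T x0 n).HasFiniteSupport := by
  classical
  apply Set.Finite.subset (Finset.finite_toSet ((univ : Finset (Fin n → L)).image (pt T x0)))
  intro y hy
  rw [Function.mem_support] at hy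
  rw [Finset.mem_coe, Finset.mem_image]
  by_contra hcon
  push Not at hcon
  apply hy
  unfold pp cnt
  rw [Finset.filter_false_of_mem (fun u _ => hcon u (Finset.mem_univ _))]
  simp

theorem pp_nonneg (T : L → Equiv.Perm X) (x0 : X) (n : ℕ) (y : X) : 0 ≤ pp T x0 n y := by
  unfold pp; positivity

theorem tsum_pp (T : L → Equiv.Perm X) (x0 : X) (n : ℕ) : ∑' y, pp T x0 n y = 1 := by
  classical
  have hq : (0 : ℝ) < Fintype.card L := by exact_mod_cast Fintype.card_pos
  have h1 : ∀ y ∉ (univ : Finset (Fin n → L)).image (pt T x0), pp T x0 n y = 0 := by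
    intro y hy
    unfold pp cnt
    rw [Finset.filter_false_of_mem]
    · simp
    · intro u _ h
      exact hy (Finset.mem_image.2 ⟨u, Finset.mem_univ _, h⟩)
  rw [tsum_eq_sum h1]
  unfold pp cnt
  rw [← Finset.sum_div, ← Nat.cast_sum, ← Finset.card_eq_sum_card_image]
  rw [Finset.card_univ, Fintype.card_fun, Fintype.card_fin, Nat.cast_pow]
  field_simp

theorem pp_inf (T : L → Equiv.Perm X) (inv : L → L) (hinv : ∀ a, T (inv a) = (T a)⁻¹) (x0 : X) 
    (hinf : InfOrbit T x0) (n : ℕ) : ∀ y, 0 < pp T x0 n y → InfOrbit T y := by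
  classical
  -- a finite closed set containing `y` contains `x0`
  have key : ∀ (n : ℕ) (u : Fin n → L) (C : Finset X), (∀ a, ∀ z ∈ C, T a z ∈ C) → pt T x0 u ∈ C → 
      x0 ∈ C := by
    intro n
    induction n with
    | zero => intro u C _ h; simpa [pt] using h
    | succ n ih =>
      intro u C hC h
      have h1 : u = (Fin.snoc (α := fun _ => L) (fun i => u i.castSucc) (u (Fin.last n)) : 
          Fin (n+1) → L) := by
        exact (Fin.snoc_init_self u).symm
      rw [h1, pt_snoc] at h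
      apply ih (fun i => u i.castSucc) C hC
      have h2 := hC (u (Fin.last n)) _ h
      rwa [show (T (u (Fin.last n))) ((T (u (Fin.last n)))⁻¹ _) = _ from (T (u (Fin.last n))).apply_symm_apply _] at h2
  intro y hy C hyC
  by_contra hcon
  push Not at hcon
  have h1 : ∃ u : Fin n → L, pt T x0 u = y := by
    by_contra hc
    push Not at hc
    unfold pp cnt at hy
    rw [Finset.filter_false_of_mem (fun u _ => hc u)] at hy
    simp at hy
  obtain ⟨u, rfl⟩ := h1
  obtain ⟨a, z, hz, hza⟩ := hinf C (key n u C hcon hyC)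
  exact hza (hcon a z hz)

open Classical in
/-- **The collision probability.** -/
theorem collision (T : L → Equiv.Perm X) (inv : L → L) (hinv : ∀ a, T (inv a) = (T a)⁻¹) (x0 : X) 
    (hinf : InfOrbit T x0) (n : ℕ) : 
    ∃ r : ℝ, 0 ≤ r ∧ r ^ 3 * (1 + 3 * (1 / (32 * (Fintype.card L : ℝ)^2)) * n) ≤ 1 ∧ 
      ((univ.filter (fun p : (Fin n → L) × (Fin n → L) => pt T x0 p.1 = pt T x0 p.2)).card : ℝ) = 
        r * (Fintype.card L : ℝ) ^ (2 * n) := by
  have hq : (0 : ℝ) < Fintype.card L := by exact_mod_cast Fintype.card_pos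
  have hq1 : (1 : ℝ) ≤ Fintype.card L := by exact_mod_cast Fintype.card_pos
  set κ : ℝ := 1 / (32 * (Fintype.card L : ℝ)^2) with hκ
  have hκ0 : 0 < κ := by positivity
  have hκ1 : κ ≤ 1 := by
    rw [hκ, div_le_one (by positivity)]
    nlinarith
  refine ⟨∑' y, (pp T x0 n y)^2, tsum_nonneg (fun y => sq_nonneg _), ?_, ?_⟩
  · apply recursion κ hκ0 hκ1 (fun n => ∑' y, (pp T x0 n y)^2) (fun n => tsum_nonneg (fun y => sq_nonneg _))
    · have h1 : ∑' y, (pp T x0 0 y)^2 ≤ ∑' y, pp T x0 0 y := by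
        apply Summable.tsum_le_tsum
        · intro y
          have h2 := pp_nonneg T x0 0 y
          have h3 : pp T x0 0 y ≤ 1 := by
            rw [← tsum_pp T x0 0]
            exact Summable.le_tsum (smm (pp_fs T x0 0)) y (fun z _ => pp_nonneg T x0 0 z)
          nlinarith
        · have : (fun y => (pp T x0 0 y)^2) = fun y => pp T x0 0 y * pp T x0 0 y := by funext y; ring
          rw [this]
          exact smm (fs_mul (pp_fs T x0 0))
        · exact smm (pp_fs T x0 0)
      rwa [tsum_pp] at h1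
    · intro n
      have h1 := energy_dec T inv hinv (pp T x0 n) (pp_fs T x0 n) (pp_nonneg T x0 n) (tsum_pp T x0 n)
        (pp_inf T inv hinv x0 hinf n)
      simp only [pp_succ]
      refine h1.trans (le_of_eq ?_)
      rw [hκ]
      ring
  · -- the count
    have h1 : ∀ y ∉ (univ : Finset (Fin n → L)).image (pt T x0), (pp T x0 n y)^2 = 0 := by
      intro y hy
      unfold pp cnt
      rw [Finset.filter_false_of_mem]
      · simp
      · intro u _ h
        exact hy (Finset.mem_image.2 ⟨u, Finset.mem_univ _, h⟩)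
    rw [tsum_eq_sum h1]
    have h2 : (univ.filter (fun p : (Fin n → L) × (Fin n → L) => pt T x0 p.1 = pt T x0 p.2)).card = 
        ∑ y ∈ (univ : Finset (Fin n → L)).image (pt T x0), (cnt T x0 n y)^2 := by
      rw [Finset.card_eq_sum_card_fiberwise (f := fun p : (Fin n → L) × (Fin n → L) => pt T x0 p.1) 
        (t := (univ : Finset (Fin n → L)).image (pt T x0)) 
        (fun p _ => Finset.mem_coe.2 (Finset.mem_image.2 ⟨p.1, Finset.mem_univ _, rfl⟩))]
      refine Finset.sum_congr rfl fun y _ => ?_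
      unfold cnt
      rw [sq, ← Finset.card_product]
      congr 1
      ext p
      simp only [Finset.mem_filter, Finset.mem_univ, true_and, Finset.mem_product]
      constructor
      · rintro ⟨h3, h4⟩; exact ⟨h4, h3 ▸ h4⟩
      · rintro ⟨h3, h4⟩; exact ⟨h3.trans h4.symm, h3⟩
    rw [h2]
    push_cast
    rw [Finset.sum_mul]
    refine Finset.sum_congr rfl fun y _ => ?_
    unfold pp
    rw [div_pow, mul_comm 2 n, pow_mul]
    field_simp

end words

end Pool.Agent.Y463.RW
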